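import Pool.Agent.N639.FS.TR

/-!
# Project FS, general windows: families of measures and the transfer principle

`TG b L S`: the measures of the families `S M` pass all tests with boundedly many digits in base `b`
up to the place `L M`, with an error smaller than all powers of `1 / L M`.
-/

set_option autoImplicit false

namespace Pool.Agent.N639.FG

open Finset Real MeasureTheory Pool.Agent.Y933.KD Filter Topology
open Pool.Agent.N639.FS

/-- all tests with boundedly many digits in base `b` up to the place `L M` -/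
def TG (b : ℕ) (L : ℕ → ℝ) (S : ℕ → Set (Measure ℝ)) : Prop :=
  Tendsto L atTop atTop ∧ (∀ᶠ M : ℕ in atTop, ∀ P ∈ S M, IsProbabilityMeasure P) ∧
  ∀ k D : ℕ, ∀ᶠ M : ℕ in atTop, ∀ P ∈ S M, ∀ n : Fin k → ℕ, (∀ i, (n i : ℝ) ≤ L M) →
    ∀ u v : Fin k → ℝ, (∀ i, 0 ≤ u i) → (∀ i, v i ≤ 1) →
    |P.real (Ev (fun _ => b) n u v) - Leb.real (Ev (fun _ => b) n u v)| ≤ ((L M) ^ D)⁻¹

/-- the families with a power saving -/
theorem tg_of_tests {B : ℕ} {A : ℝ} {S : ℕ → Set (Measure ℝ)} (hA : 0 < A) (hT : Tests B A S)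
    {b : ℕ} (hb : 1 ≤ b) (hbB : b ≤ B) : TG b (fun M => A * log M) S := by
  obtain ⟨h1, h2⟩ := hT
  have hlog : Tendsto (fun M : ℕ => A * log (M : ℝ)) atTop atTop :=
    (Real.tendsto_log_atTop.comp tendsto_natCast_atTop_atTop).const_mul_atTop hA
  refine ⟨hlog, ?_, ?_⟩
  · filter_upwards [eventually_ge_atTop 1] with M hM P hP
    exact h1 M hM P hP
  · intro k D
    obtain ⟨δ, hδ, C, hC⟩ := h2 k
    have hev := log_pow_le (max C 0 * A ^ D) D hδ
    filter_upwards [hev, eventually_ge_atTop 1, hlog.eventually_gt_atTop 0]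
      with M hM hM1 hM2 P hP n hn u v hu hv
    refine (hC M hM1 P hP (fun _ => b) n (fun _ => ⟨hb, hbB⟩) hn u v hu hv).trans ?_
    have hMp : (0 : ℝ) < M := by exact_mod_cast hM1
    have h3 : (0 : ℝ) < (M : ℝ) ^ δ := by positivity
    have h4 : (0 : ℝ) < (A * log M) ^ D := by positivity
    rw [Real.rpow_neg hMp.le, ← div_eq_mul_inv, div_le_iff₀ h3, ← div_eq_inv_mul, le_div_iff₀ h4]
    calc C * (A * log M) ^ D ≤ max C 0 * (A * log M) ^ D := by gcongr; exact le_max_left _ _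
      _ = max C 0 * A ^ D * log M ^ D := by rw [mul_pow]; ring
      _ ≤ (M : ℝ) ^ δ := hM

/-- **the transfer principle** -/
theorem trg {b : ℕ} {L : ℕ → ℝ} {S : ℕ → Set (Measure ℝ)} (hb : 1 ≤ b) (hT : TG b L S)
    (k D E : ℕ) : ∀ᶠ M : ℕ in atTop, ∀ P ∈ S M, ∀ w N : ℕ, (N : ℝ) ≤ L M →
      (b : ℝ) ^ w ≤ (L M) ^ D → ∀ F : (Fin k → ℕ) → (Fin k → ℕ) → ℝ, (∀ n c, |F n c| ≤ 1) →
      |∫ x, ∑ n ∈ Fintype.piFinset (fun _ : Fin k => range N), F n (fun i => wd b w (n i) x) ∂P -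
        ∫ x, ∑ n ∈ Fintype.piFinset (fun _ : Fin k => range N), F n (fun i => wd b w (n i) x) ∂Leb|
        ≤ ((L M) ^ E)⁻¹ := by
  obtain ⟨hL, hS, hT⟩ := hT
  filter_upwards [hS, hT k ((1 + D) * k + E), hL.eventually_gt_atTop 0]
    with M h1 h2 h3 P hP w N hN hw F hF
  have := h1 P hP
  have key := SF_diff (w := w) (N := N) hb hF P Leb (Δ := ((L M) ^ ((1 + D) * k + E))⁻¹) (by
    intro n u v hn hu hv
    refine h2 P hP n (fun i => ?_) u v hu hv
    have : (n i : ℝ) ≤ N := by exact_mod_cast (hn i).le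
    exact this.trans hN)
  refine (le_trans (le_of_eq rfl) key).trans ?_
  have h4 : ((N : ℝ) * (b : ℝ) ^ w) ^ k ≤ (L M) ^ ((1 + D) * k) := by
    calc ((N : ℝ) * (b : ℝ) ^ w) ^ k ≤ (L M * (L M) ^ D) ^ k := by gcongr
      _ = (L M) ^ ((1 + D) * k) := by
          rw [← pow_succ', ← pow_mul, Nat.add_comm D 1]
  calc ((N : ℝ) * (b : ℝ) ^ w) ^ k * ((L M) ^ ((1 + D) * k + E))⁻¹
      ≤ (L M) ^ ((1 + D) * k) * ((L M) ^ ((1 + D) * k + E))⁻¹ := by gcongr
    _ = ((L M) ^ E)⁻¹ := by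
        rw [pow_add]
        have : (L M) ^ ((1 + D) * k) ≠ 0 := by positivity
        field_simp

/-- the measures after a shift of the digits -/
def Sh (b : ℕ) (L : ℕ → ℝ) (S : ℕ → Set (Measure ℝ)) (M : ℕ) : Set (Measure ℝ) :=
  {Q | ∃ P ∈ S M, ∃ s : ℕ, (s : ℝ) ≤ L M ∧ Q = P.map (Tb b s)}

lemma preimage_Ev {k : ℕ} (b s : ℕ) (n : Fin k → ℕ) (u v : Fin k → ℝ) :
    Tb b s ⁻¹' (Ev (fun _ => b) n u v) = Ev (fun _ => b) (fun i => s + n i) u v := by
  ext x
  unfold Ev
  simp only [Set.mem_preimage, Set.mem_ofPred_eq]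
  have h : ∀ i, Int.fract ((b : ℝ) ^ n i * Tb b s x) = Int.fract ((b : ℝ) ^ (s + n i) * x) := by
    intro i
    have := Tb_add b s (n i) x
    unfold Tb at this ⊢
    exact this.symm
  simp only [h]

lemma Leb_shift {k : ℕ} {b : ℕ} (hb : 1 ≤ b) (s : ℕ) (n : Fin k → ℕ) (u v : Fin k → ℝ) :
    Leb.real (Ev (fun _ => b) (fun i => s + n i) u v) = Leb.real (Ev (fun _ => b) n u v) := by
  rw [← preimage_Ev, ← integral_indicator_one (measurableSet_Ev _ _ _ _),
    ← integral_indicator_one ((measurable_Tb b s) (measurableSet_Ev _ _ _ _)),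
    ← invariance_real (p := s) hb (h := (Ev (fun _ => b) n u v).indicator 1)
      (measurable_one.indicator (measurableSet_Ev _ _ _ _)) (C := 1) (fun x => by
        by_cases hx : x ∈ Ev (fun _ => b) n u v
        · rw [Set.indicator_of_mem hx]; simp
        · rw [Set.indicator_of_notMem hx]; simp)]
  rfl

theorem tg_shift {b : ℕ} {L : ℕ → ℝ} {S : ℕ → Set (Measure ℝ)} (hb : 1 ≤ b)
    (hT : TG b (fun M => 2 * L M) S) : TG b L (Sh b L S) := by
  obtain ⟨hL, hS, hT⟩ := hT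
  have hL' : Tendsto L atTop atTop := by
    have := hL.const_mul_atTop (show (0 : ℝ) < 1 / 2 by norm_num)
    refine this.congr fun M => ?_
    ring
  refine ⟨hL', ?_, ?_⟩
  · filter_upwards [hS] with M h Q hQ
    obtain ⟨P, hP, s, _, rfl⟩ := hQ
    have := h P hP
    exact Measure.isProbabilityMeasure_map (measurable_Tb b s).aemeasurable
  · intro k D
    filter_upwards [hT k D, hL'.eventually_gt_atTop 0] with M h h0 Q hQ n hn u v hu hv
    obtain ⟨P, hP, s, hs, rfl⟩ := hQ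
    have h1 := h P hP (fun i => s + n i) (fun i => by
      push_cast
      linarith [hn i]) u v hu hv
    rw [Leb_shift hb, ← preimage_Ev] at h1
    have h2 : (P.map (Tb b s)).real (Ev (fun _ => b) n u v) =
        P.real (Tb b s ⁻¹' (Ev (fun _ => b) n u v)) := by
      unfold Measure.real
      rw [Measure.map_apply (measurable_Tb b s) (measurableSet_Ev _ _ _ _)]
    rw [h2]
    refine h1.trans ?_
    gcongr
    linarith

end Pool.Agent.N639.FG
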