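import Pool.Agent.N407.FS.C1
import Pool.Agent.N639.FG.TR
import Pool.Agent.N639.FS.L1
import Pool.Agent.N199.FSL2

/-!
# Project FS, general windows: the count law

This follows `Pool.Agent.N407.FS.C1` (helper407).
-/

set_option autoImplicit false

namespace Pool.Agent.N639.FG

open Finset Real MeasureTheory Filter Topology Pool.Agent.Y933.KD Pool.Agent.N639.FS
open Pool.Agent.N407.FS

/-- **the count law** for all words of all lengths -/
theorem cg1 {b : ℕ} {Λ : ℕ → ℝ} {S : ℕ → Set (Measure ℝ)} (hb2 : 2 ≤ b) (hT : TG b Λ S) {η : ℝ}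
    (hη : 0 < η) (K : ℕ) : ∀ᶠ M : ℕ in atTop, ∀ P ∈ S M, ∃ U : Set ℝ, MeasurableSet U ∧
      P.real U ≤ ((Λ M) ^ K)⁻¹ ∧
      ∀ x ∉ U, ∀ w N c : ℕ, (N : ℝ) ≤ Λ M → c < b ^ w →
        |occ b w N c x - N / (b : ℝ) ^ w| ≤ (Λ M) ^ η * (1 + √(N / (b : ℝ) ^ w)) := by
  classical
  have h2 : St_L2 := Pool.Agent.N199.FSL2.l2
  have hb1 : 1 ≤ b := by omega
  obtain ⟨s, hs⟩ := exists_nat_ge (((K : ℝ) + 9) / η)
  have hs' : (K : ℝ) + 9 ≤ η * s := by
    rw [div_le_iff₀ hη] at hs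
    linarith
  have htr := trg hb1 hT (2 * s) 2 1
  have hlog := hT.1
  filter_upwards [htr, hT.2.1, hlog.eventually (ev_L b 1 η hη s)] with M hM1 hMp hM2 P hP
  have : IsProbabilityMeasure P := hMp P hP
  obtain ⟨l1, l2, l3, l4, l5, l6, l7⟩ := hM2
  set L : ℝ := Λ M with hL
  have hL0 : 0 < L := by linarith
  rw [one_mul] at l2 l5
  set Nm : ℕ := ⌊L⌋₊ with hNm
  have hNmle : (Nm : ℝ) ≤ L := Nat.floor_le (by positivity)
  set Q : ℕ := ⌊L ^ 2⌋₊ with hQ
  set T : ℝ := L ^ (η / 2) with hTdef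
  have hT0 : 0 < T := Real.rpow_pos_of_pos hL0 _
  set Vld : ℕ × ℕ × ℕ → Prop := fun q => 1 ≤ q.1 ∧
    b ^ q.1 ≤ b * (Nm + 1) ∧ q.2.1 < b ^ q.1 ∧ q.1 * q.2.2 ≤ Nm with hVld
  set I : Finset (ℕ × ℕ × ℕ) :=
    (range (Q + 1) ×ˢ range (Q + 1) ×ˢ range (Q + 1)).filter Vld with hI
  set EV : ℕ × ℕ × ℕ → Set ℝ := fun q =>
    {x | T * (1 + √((q.1 * q.2.2 : ℕ) / (b : ℝ) ^ q.1)) ≤
      |occ b q.1 (q.1 * q.2.2) q.2.1 x -
        (q.1 * q.2.2 : ℕ) / (b : ℝ) ^ q.1|} with hEV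
  have hbw : ∀ w : ℕ, b ^ w ≤ b * (Nm + 1) → (b : ℝ) ^ w ≤ L ^ 2 := by
    intro w hbw
    calc (b : ℝ) ^ w ≤ (b : ℝ) * (Nm + 1) := by exact_mod_cast hbw
      _ ≤ b * (L + 1) := by gcongr
      _ ≤ L ^ 2 := l2
  have h2w : ∀ w : ℕ, b ^ w ≤ b * (Nm + 1) → (2 : ℝ) ^ w ≤ L ^ 2 := by
    intro w h
    have : (2 : ℝ) ≤ b := by exact_mod_cast hb2
    calc (2 : ℝ) ^ w ≤ (b : ℝ) ^ w := by gcongr
      _ ≤ L ^ 2 := hbw w h
  have hevent : ∀ q ∈ I, P.real (EV q) ≤ L / T ^ (2 * s) := by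
    rintro ⟨w, c, J⟩ hq
    rw [hI, mem_filter] at hq
    obtain ⟨hq1, v2, v3, v4, v5⟩ := hq
    simp only at v2 v3 v4 v5
    have hE : (0 : ℝ) ≤ 6 * (2 * s).factorial * (w : ℝ) ^ (2 * s) := by positivity
    have hwJ : ((w * J : ℕ) : ℝ) ≤ L := by
      calc ((w * J : ℕ) : ℝ) ≤ (Nm : ℝ) := by exact_mod_cast v5
        _ ≤ L := hNmle
    have hF : ∀ (n c' : Fin (2 * s) → ℕ),
        |∏ i, ((if c' i = c then (1 : ℝ) else 0) - 1 / (b : ℝ) ^ w)| ≤ 1 := by
      intro n c'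
      rw [Finset.abs_prod]
      refine prod_le_one (fun i _ => abs_nonneg _) fun i _ => ?_
      have hbR : (1 : ℝ) ≤ (b : ℝ) ^ w := one_le_pow₀ (by exact_mod_cast hb1)
      have h5 : 1 / (b : ℝ) ^ w ≤ 1 := by
        rw [div_le_one (by linarith)]; exact hbR
      have h6 : 0 ≤ 1 / (b : ℝ) ^ w := by positivity
      rw [abs_le]
      split_ifs <;> constructor <;> linarith
    have hTR := hM1 P hP w (w * J) hwJ (hbw w v3)
      (fun _ c' => ∏ i, ((if c' i = c then (1 : ℝ) else 0) - 1 / (b : ℝ) ^ w)) hF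
    have hL1 : (L ^ 1)⁻¹ ≤ 1 := by
      rw [pow_one]
      exact inv_le_one_of_one_le₀ l1
    have hmom := mom_P P h2 hb1 v2 v4 (hTR.trans hL1)
    have hev := event_P P hb1 v2 hT0 hE hmom
    refine hev.trans ?_
    have := (l7 w (h2w w v3)).1
    gcongr
    linarith
  have hcard : (I.card : ℝ) ≤ L ^ 8 := by
    have h3 : (I.card : ℝ) ≤ ((Q + 1) * ((Q + 1) * (Q + 1)) : ℕ) := by
      have := card_filter_le
        (range (Q + 1) ×ˢ range (Q + 1) ×ˢ range (Q + 1)) Vld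
      rw [card_product, card_product, card_range] at this
      exact_mod_cast this
    have hQle : ((Q : ℝ) + 1) ≤ 2 * L ^ 2 := by
      have : (Q : ℝ) ≤ L ^ 2 := Nat.floor_le (by positivity)
      nlinarith
    have hQ0 : (0 : ℝ) ≤ (Q : ℝ) + 1 := by positivity
    calc (I.card : ℝ) ≤ ((Q + 1) * ((Q + 1) * (Q + 1)) : ℕ) := h3
      _ = (((Q : ℝ) + 1) * (((Q : ℝ) + 1) * ((Q : ℝ) + 1))) := by push_cast; ring
      _ ≤ ((2 * L ^ 2) * ((2 * L ^ 2) * (2 * L ^ 2))) := by gcongr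
      _ = 8 * L ^ 6 := by ring
      _ ≤ L * L ^ 6 := by gcongr
      _ = 1 * L ^ 7 := by ring
      _ ≤ L * L ^ 7 := by gcongr
      _ = L ^ 8 := by ring
  have hTs : L ^ (K + 9) ≤ T ^ (2 * s) := by
    have h3 : T ^ (2 * s) = L ^ (η * s) := by
      rw [hTdef, ← Real.rpow_natCast, ← Real.rpow_mul hL0.le]
      congr 1
      push_cast
      ring
    rw [h3, ← Real.rpow_natCast]
    refine Real.rpow_le_rpow_of_exponent_le l1 ?_
    push_cast
    linarith
  refine ⟨⋃ q ∈ I, EV q, ?_, ?_, ?_⟩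
  · refine Finset.measurableSet_biUnion _ fun q _ => ?_
    exact measurableSet_le measurable_const ((measurable_occ _ _ _ _).sub_const _).abs
  · calc P.real (⋃ q ∈ I, EV q) ≤ ∑ q ∈ I, P.real (EV q) := measureReal_biUnion_finset_le _ _
      _ ≤ ∑ _q ∈ I, L / T ^ (2 * s) := sum_le_sum hevent
      _ = I.card * (L / T ^ (2 * s)) := by rw [sum_const, nsmul_eq_mul]
      _ ≤ L ^ 8 * (L / L ^ (K + 9)) := by gcongr
      _ = (L ^ K)⁻¹ := by
          rw [pow_add]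
          field_simp
  · intro x hx w N c hN hc
    have hb' : (0 : ℝ) < b := by exact_mod_cast hb1
    have hNN : N ≤ Nm := Nat.le_floor hN
    have hTT : L ^ η = T * T := by
      rw [hTdef, ← Real.rpow_add hL0]
      congr 1
      ring
    -- the words of moderate length
    have key : ∀ w c : ℕ, 1 ≤ w → b ^ w ≤ b * (Nm + 1) → c < b ^ w →
        |occ b w N c x - N / (b : ℝ) ^ w| ≤ 2 * T * (1 + √(N / (b : ℝ) ^ w)) := by
      intro w c hw hbw' hc
      set J := N / w with hJ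
      have hwJ : w * J ≤ N := Nat.mul_div_le N w
      have hwJ2 : N ≤ w * J + w := by
        have := Nat.lt_mul_div_succ N (show 0 < w by omega)
        rw [← hJ] at this
        nlinarith
      have hL2 := hbw w hbw'
      have hq : (w, c, J) ∈ I := by
        rw [hI, mem_filter]
        refine ⟨?_, hw, hbw', hc, hwJ.trans hNN⟩
        have hbq : b ^ w ≤ Q := Nat.le_floor (by push_cast; exact hL2)
        have hwq : w < b ^ w := Nat.lt_pow_self (by omega)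
        have hJq : J ≤ Q := by
          have hJN : J ≤ N := Nat.div_le_self N w
          have : Nm ≤ Q := Nat.le_floor (by linarith)
          omega
        simp only [mem_product, mem_range]
        omega
      have hx1 : x ∉ EV (w, c, J) := fun h => hx (Set.mem_biUnion hq h)
      rw [hEV] at hx1
      simp only [Set.mem_ofPred_eq, not_le] at hx1
      have hbwpos : (0 : ℝ) < (b : ℝ) ^ w := by positivity
      have hbw1 : (1 : ℝ) ≤ (b : ℝ) ^ w := one_le_pow₀ (by exact_mod_cast hb1)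
      have hwT : (w : ℝ) ≤ T := (l7 w (h2w w hbw')).2
      have o1 := occ_mono b w c x hwJ
      have o2 := occ_add_le b w c x (N' := N) (N := w * J) (d := w) hwJ2
      have m1 : ((w * J : ℕ) : ℝ) / (b : ℝ) ^ w ≤ N / (b : ℝ) ^ w := by
        gcongr
      have m2 : (N : ℝ) / (b : ℝ) ^ w ≤ ((w * J : ℕ) : ℝ) / (b : ℝ) ^ w + w := by
        have h5 : (N : ℝ) ≤ ((w * J : ℕ) : ℝ) + w := by exact_mod_cast hwJ2
        calc (N : ℝ) / (b : ℝ) ^ w ≤ (((w * J : ℕ) : ℝ) + w) / (b : ℝ) ^ w := by gcongr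
          _ = ((w * J : ℕ) : ℝ) / (b : ℝ) ^ w + w / (b : ℝ) ^ w := add_div _ _ _
          _ ≤ ((w * J : ℕ) : ℝ) / (b : ℝ) ^ w + w := by
              gcongr
              exact div_le_self (Nat.cast_nonneg w) hbw1
      have m3 : √(((w * J : ℕ) : ℝ) / (b : ℝ) ^ w) ≤ √(N / (b : ℝ) ^ w) := Real.sqrt_le_sqrt m1
      have m4 : T * (1 + √(((w * J : ℕ) : ℝ) / (b : ℝ) ^ w)) ≤ T * (1 + √(N / (b : ℝ) ^ w)) := by
        gcongr
      have m5 : T ≤ T * (1 + √(N / (b : ℝ) ^ w)) := by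
        have := Real.sqrt_nonneg ((N : ℝ) / (b : ℝ) ^ w)
        nlinarith
      have hx2 := abs_lt.1 hx1
      rw [abs_le]
      constructor <;> linarith [hx2.1, hx2.2]
    rcases Nat.eq_zero_or_pos w with hw | hw
    · subst hw
      have hc0 : c = 0 := by
        rw [pow_zero] at hc; omega
      subst hc0
      rw [occ_zero hb1, pow_zero, div_one, sub_self, abs_zero]
      positivity
    by_cases hbw' : b ^ w ≤ b * (Nm + 1)
    · refine (key w c hw hbw' hc).trans ?_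
      rw [hTT]
      have : 0 ≤ √((N : ℝ) / (b : ℝ) ^ w) := Real.sqrt_nonneg _
      gcongr
      linarith
    · push Not at hbw'
      set w0 := Nat.log b (b * (Nm + 1)) with hw0
      have hne : b * (Nm + 1) ≠ 0 := by positivity
      have a1 : b ^ w0 ≤ b * (Nm + 1) := Nat.pow_log_le_self b hne
      have a2 : b * (Nm + 1) < b ^ (w0 + 1) := Nat.lt_pow_succ_log_self (by omega) _
      have a3 : Nm + 1 < b ^ w0 := by
        rw [pow_succ, mul_comm (b ^ w0)] at a2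
        exact Nat.lt_of_mul_lt_mul_left a2
      have a4 : 1 ≤ w0 := by
        by_contra h
        have : w0 = 0 := by omega
        rw [this, pow_zero] at a3
        omega
      have a5 : w0 ≤ w := by
        by_contra h
        push Not at h
        have : b ^ w ≤ b ^ w0 := Nat.pow_le_pow_right (by omega) h.le
        omega
      have hc0 : c / b ^ (w - w0) < b ^ w0 := by
        rw [Nat.div_lt_iff_lt_mul (by positivity), ← pow_add]
        have : w0 + (w - w0) = w := by omega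
        rw [this]; exact hc
      have k1 := key w0 (c / b ^ (w - w0)) a4 a1 hc0
      have k2 := occ_prefix hb1 a5 N c x
      have k3 := occ_nonneg b w N c x
      have hNw0 : (N : ℝ) / (b : ℝ) ^ w0 ≤ 1 := by
        rw [div_le_one (by positivity)]
        have : N ≤ b ^ w0 := by omega
        exact_mod_cast this
      have hNw : (N : ℝ) / (b : ℝ) ^ w ≤ 1 := by
        rw [div_le_one (by positivity)]
        have h6 : N ≤ b ^ w := by
          have : b ^ w0 ≤ b ^ w := Nat.pow_le_pow_right (by omega) a5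
          omega
        exact_mod_cast h6
      have hs1 : √((N : ℝ) / (b : ℝ) ^ w0) ≤ 1 := by
        rw [Real.sqrt_le_left zero_le_one, one_pow]
        exact hNw0
      have hs2 : 0 ≤ √((N : ℝ) / (b : ℝ) ^ w) := Real.sqrt_nonneg _
      have hNw' : 0 ≤ (N : ℝ) / (b : ℝ) ^ w := by positivity
      have k4 : 2 * T * (1 + √((N : ℝ) / (b : ℝ) ^ w0)) ≤ 4 * T := by nlinarith
      have k5 := (abs_le.1 (k1.trans k4)).2
      have k6 : 4 * T + 1 ≤ T * T := by nlinarith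
      have k7 : T * T ≤ T * T * (1 + √((N : ℝ) / (b : ℝ) ^ w)) := by nlinarith
      rw [hTT, abs_le]
      constructor <;> nlinarith


/-- **the count law** in all windows -/
theorem cg1w {b : ℕ} {Λ : ℕ → ℝ} {S : ℕ → Set (Measure ℝ)} (hb2 : 2 ≤ b)
    (hT : TG b (fun M => 2 * Λ M) S) {η : ℝ} (hη : 0 < η) (K : ℕ) :
    ∀ᶠ M : ℕ in atTop, ∀ P ∈ S M, ∃ U : Set ℝ, MeasurableSet U ∧
      P.real U ≤ ((Λ M) ^ K)⁻¹ ∧
      ∀ x ∉ U, ∀ w s N c : ℕ, ((s + N : ℕ) : ℝ) ≤ Λ M → c < b ^ w →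
        |∑ n ∈ Ico s (s + N), cnd b w n c x - N / (b : ℝ) ^ w| ≤
          (Λ M) ^ η * (1 + √(N / (b : ℝ) ^ w)) := by
  classical
  have hb1 : 1 ≤ b := by omega
  have hTs := tg_shift hb1 hT
  filter_upwards [cg1 hb2 hTs hη (K + 2), hT.2.1, hTs.1.eventually_ge_atTop 2]
    with M hM hMp hL P hP
  have hPp := hMp P hP
  have h1 : ∀ s : ℕ, ∃ U : Set ℝ, (s : ℝ) ≤ Λ M → MeasurableSet U ∧
      (P.map (Tb b s)).real U ≤ ((Λ M) ^ (K + 2))⁻¹ ∧
      ∀ x ∉ U, ∀ w N c : ℕ, (N : ℝ) ≤ Λ M → c < b ^ w →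
        |occ b w N c x - N / (b : ℝ) ^ w| ≤ (Λ M) ^ η * (1 + √(N / (b : ℝ) ^ w)) := by
    intro s
    by_cases hs : (s : ℝ) ≤ Λ M
    · obtain ⟨U, hU⟩ := hM (P.map (Tb b s)) ⟨P, hP, s, hs, rfl⟩
      exact ⟨U, fun _ => hU⟩
    · exact ⟨∅, fun h => absurd h hs⟩
  choose U hU using h1
  have hL0 : (0 : ℝ) < Λ M := by linarith
  have hsm : ∀ s ∈ range (⌊Λ M⌋₊ + 1), (s : ℝ) ≤ Λ M := by
    intro s hs
    have h2 := mem_range.1 hs
    have h3 : (⌊Λ M⌋₊ : ℝ) ≤ Λ M := Nat.floor_le hL0.le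
    have h4 : (s : ℝ) ≤ (⌊Λ M⌋₊ : ℝ) := by exact_mod_cast (by omega : s ≤ ⌊Λ M⌋₊)
    linarith
  refine ⟨⋃ s ∈ range (⌊Λ M⌋₊ + 1), Tb b s ⁻¹' (U s), ?_, ?_, ?_⟩
  · exact Finset.measurableSet_biUnion _ fun s hs => measurable_Tb b s (hU s (hsm s hs)).1
  · have h2 : ∀ s ∈ range (⌊Λ M⌋₊ + 1), P.real (Tb b s ⁻¹' (U s)) ≤ ((Λ M) ^ (K + 2))⁻¹ := by
      intro s hs
      have h3 := (hU s (hsm s hs)).2.1
      have h4 : (P.map (Tb b s)).real (U s) = P.real (Tb b s ⁻¹' (U s)) := by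
        unfold Measure.real
        rw [Measure.map_apply (measurable_Tb b s) (hU s (hsm s hs)).1]
      rwa [h4] at h3
    refine (measureReal_biUnion_finset_le _ _).trans ((sum_le_sum h2).trans ?_)
    rw [sum_const, card_range, nsmul_eq_mul]
    have h3 : (⌊Λ M⌋₊ : ℝ) ≤ Λ M := Nat.floor_le hL0.le
    have h4 : (((⌊Λ M⌋₊ + 1 : ℕ)) : ℝ) ≤ (Λ M) ^ 2 := by
      push_cast
      nlinarith
    calc (((⌊Λ M⌋₊ + 1 : ℕ)) : ℝ) * ((Λ M) ^ (K + 2))⁻¹ ≤ (Λ M) ^ 2 * ((Λ M) ^ (K + 2))⁻¹ := by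
          gcongr
      _ = ((Λ M) ^ K)⁻¹ := by
          rw [pow_add]
          field_simp
  · intro x hx w s N c hN hc
    push_cast at hN
    have hs : (s : ℝ) ≤ Λ M := by
      have : (0 : ℝ) ≤ N := Nat.cast_nonneg N
      linarith
    have hN' : (N : ℝ) ≤ Λ M := by
      have : (0 : ℝ) ≤ s := Nat.cast_nonneg s
      linarith
    have hs' : s ∈ range (⌊Λ M⌋₊ + 1) := by
      have := Nat.le_floor hs
      exact mem_range.2 (by omega)
    have hx' : Tb b s x ∉ U s := fun h => hx (Set.mem_biUnion hs' h)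
    have h2 := (hU s hs).2.2 (Tb b s x) hx' w N c hN' hc
    have h3 : ∑ n ∈ Ico s (s + N), cnd b w n c x = occ b w N c (Tb b s x) := by
      unfold occ
      rw [sum_Ico_eq_sum_range]
      simp only [Nat.add_sub_cancel_left]
      exact sum_congr rfl fun n _ => cnd_add b w s n c x
    rw [h3]
    exact h2

end Pool.Agent.N639.FG
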