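import Pool.Agent.N407.FS.C2
import Pool.Agent.N639.FG.TR
import Pool.Agent.N639.FS.L1
import Pool.Agent.N346.FSL3

/-!
# Project FS, general windows: the longest repeated word

This follows `Pool.Agent.N407.FS.C2` (helper407).
-/

set_option autoImplicit false

namespace Pool.Agent.N639.FG

open Finset Real MeasureTheory Filter Topology Pool.Agent.Y933.KD Pool.Agent.N639.FS
open Pool.Agent.N407.FS

lemma ev_N2 (b : ℕ) {ε : ℝ} (hε : 0 < ε) : ∀ᶠ N : ℕ in atTop,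
    (b : ℝ) ≤ N ∧ (3 : ℝ) ≤ N ∧ 16 * log N ≤ N ∧ 4 ≤ (N : ℝ) ^ (ε / 2) ∧
      2 * (256 * log N ^ 2 + 1) ≤ (N : ℝ) ^ (ε / 2) := by
  have e1 : ∀ᶠ t : ℝ in atTop, 4 ≤ t ^ (ε / 2) :=
    (tendsto_rpow_atTop (by positivity)).eventually_ge_atTop 4
  have e2 : ∀ᶠ t : ℝ in atTop, ‖log t‖ ≤ (1 / 16) * ‖id t‖ :=
    (Real.isLittleO_log_id_atTop).bound (by norm_num)
  have h1 := tendsto_natCast_atTop_atTop (R := ℝ)
  have e3 := log_pow_le (2 * (2 * 256)) 2 (δ := ε / 2) (by positivity)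
  have e4 : ∀ᶠ t : ℝ in atTop, 2 * 2 ≤ t ^ (ε / 2) :=
    (tendsto_rpow_atTop (by positivity)).eventually_ge_atTop _
  filter_upwards [h1.eventually e1, h1.eventually e2, e3, h1.eventually e4,
    h1.eventually_ge_atTop (b : ℝ), h1.eventually_ge_atTop 3] with N a1 a2 a3 a4 a5 a6
  have hlog : 0 ≤ log (N : ℝ) := Real.log_nonneg (by linarith)
  refine ⟨a5, a6, ?_, a1, ?_⟩
  · rw [Real.norm_eq_abs, abs_of_nonneg hlog, id, Real.norm_eq_abs, abs_of_pos (by linarith)] at a2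
    linarith
  · linarith

theorem cg2 {b : ℕ} {Λ : ℕ → ℝ} {S : ℕ → Set (Measure ℝ)} (hb2 : 2 ≤ b) (hT : TG b Λ S) {ε : ℝ}
    (hε : 0 < ε) (hε1 : ε ≤ 1 / 2) : ∃ N0 : ℕ, ∀ᶠ M : ℕ in atTop, ∀ P ∈ S M, ∀ N : ℕ, N0 ≤ N →
      (N : ℝ) ≤ Λ M → ∃ U : Set ℝ, MeasurableSet U ∧ P.real U ≤ (N : ℝ) ^ (-(ε / 2)) ∧ ∀ x ∉ U,
        (∀ w : ℕ, (2 + ε) * log N ≤ w * log b → ¬ Rep b w N x) ∧
        (∀ w : ℕ, w * log b ≤ (2 - ε) * log N → Rep b w N x) := by
  classical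
  have h2 : St_L1 := l1
  have h3 : St_L3 := Pool.Agent.N346.FSL3.l3
  have hb1 : 1 ≤ b := by omega
  have hlog := hT.1
  obtain ⟨N1, hN1⟩ := eventually_atTop.1 (ev_N2 b hε)
  refine ⟨N1, ?_⟩
  filter_upwards [trg hb1 hT 2 4 1, trg hb1 hT 4 4 1, hlog.eventually_ge_atTop 1,
    hlog.eventually_ge_atTop (b : ℝ), hT.2.1] with M hM1 hM2 m3 m4 hMp P hP N hN hNA
  obtain ⟨n1, n2, n3, n4, n5⟩ := hN1 N hN
  have : IsProbabilityMeasure P := hMp P hP
  set L : ℝ := Λ M with hL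
  have hL0 : 0 < L := by linarith
  have hbR : (2 : ℝ) ≤ b := by exact_mod_cast hb2
  have hlogb : 0 < log (b : ℝ) := Real.log_pos (by linarith)
  have hlogb2 : 1 / 2 ≤ log (b : ℝ) := by
    have h4 := Real.log_two_gt_d9
    have h5 := Real.log_le_log (by norm_num) hbR
    linarith
  have hN0 : (0 : ℝ) < N := by linarith
  have hlogN : 1 ≤ log (N : ℝ) := by
    rw [Real.le_log_iff_exp_le hN0]
    have := Real.exp_one_lt_d9
    linarith
  have hlogbN : log (b : ℝ) ≤ log (N : ℝ) := Real.log_le_log (by linarith) (by linarith)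
  have hN3 : (N : ℝ) ^ 3 * b ≤ L ^ 4 := by
    calc (N : ℝ) ^ 3 * b ≤ L ^ 3 * L := by gcongr
      _ = L ^ 4 := by ring
  -- the error term
  have hΔ : (L ^ 1)⁻¹ ≤ (N : ℝ) ^ (-ε) := by
    rw [pow_one, Real.rpow_neg hN0.le]
    apply inv_anti₀ (Real.rpow_pos_of_pos hN0 _)
    calc (N : ℝ) ^ ε ≤ (N : ℝ) ^ (1 : ℝ) :=
          Real.rpow_le_rpow_of_exponent_le (by linarith) (by linarith)
      _ = N := Real.rpow_one _
      _ ≤ L := hNA
  have hNh : 0 < (N : ℝ) ^ (ε / 2) := Real.rpow_pos_of_pos hN0 _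
  have hNε2 : (N : ℝ) ^ ε = (N : ℝ) ^ (ε / 2) * (N : ℝ) ^ (ε / 2) := by
    rw [← Real.rpow_add hN0]
    congr 1
    ring
  -- long words
  set w1 : ℕ := ⌈(2 + ε) * log N / log b⌉₊ with hw1
  have a1 : (2 + ε) * log N ≤ w1 * log b := by
    have := Nat.le_ceil ((2 + ε) * log N / log b)
    rwa [div_le_iff₀ hlogb] at this
  have a2 : (w1 : ℝ) * log b ≤ 3 * log N + log b := by
    have := (Nat.ceil_lt_add_one (show 0 ≤ (2 + ε) * log N / log b by positivity)).le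
    rw [← hw1] at this
    calc (w1 : ℝ) * log b ≤ ((2 + ε) * log N / log b + 1) * log b := by gcongr
      _ = (2 + ε) * log N + log b := by field_simp
      _ ≤ 3 * log N + log b := by nlinarith
  have a3 : (N : ℝ) ^ 2 * N ^ ε ≤ (b : ℝ) ^ w1 := by
    rw [pow_eq_exp hb1, Real.rpow_def_of_pos hN0, ← Real.exp_log (show 0 < (N : ℝ) ^ 2 by positivity),
      ← Real.exp_add, Real.log_pow]
    refine Real.exp_le_exp.2 ?_
    push_cast
    linarith
  have a4 : (b : ℝ) ^ w1 ≤ L ^ 4 := by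
    refine le_trans ?_ hN3
    calc (b : ℝ) ^ w1 ≤ (N : ℝ) ^ 3 * b := by
          rw [pow_eq_exp hb1]
          calc rexp (w1 * log b) ≤ rexp (3 * log N + log b) := Real.exp_le_exp.2 a2
            _ = (N : ℝ) ^ 3 * b := by
                rw [Real.exp_add, Real.exp_log (by positivity)]
                congr 1
                rw [show (3 : ℝ) * log N = ((3 : ℕ) : ℝ) * log N by norm_num, Real.exp_nat_mul,
                  Real.exp_log hN0]
      _ ≤ (N : ℝ) ^ 3 * b := le_rfl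
  obtain ⟨U1, hU1m, hU1, hU1x⟩ := upper_part h3 P (b := b) (w := w1) (N := N) hb1
    (hM1 P hP w1 N hNA a4
      (fun n v => if n 0 < n 1 ∧ v 0 = v 1 then (1 : ℝ) else 0) (by
        intro n c
        split_ifs <;> norm_num))
  have hU1' : P.real U1 ≤ (N : ℝ) ^ (-(ε / 2)) / 2 := by
    have h4 : (N : ℝ) ^ 2 / (b : ℝ) ^ w1 ≤ (N : ℝ) ^ (-ε) := by
      have hNε : 0 < (N : ℝ) ^ ε := Real.rpow_pos_of_pos hN0 _
      calc (N : ℝ) ^ 2 / (b : ℝ) ^ w1 ≤ (N : ℝ) ^ 2 / ((N : ℝ) ^ 2 * N ^ ε) := by gcongr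
        _ = (N : ℝ) ^ (-ε) := by
            rw [Real.rpow_neg hN0.le]
            field_simp
    have h5 : (N : ℝ) ^ (-ε) ≤ (N : ℝ) ^ (-(ε / 2)) / 4 := by
      rw [Real.rpow_neg hN0.le, Real.rpow_neg hN0.le, hNε2, mul_inv]
      have : ((N : ℝ) ^ (ε / 2))⁻¹ ≤ 1 / 4 := by
        rw [one_div]
        exact inv_anti₀ (by norm_num) n4
      have h0 : 0 < ((N : ℝ) ^ (ε / 2))⁻¹ := by positivity
      nlinarith
    linarith
  -- short words
  set w2 : ℕ := ⌊(2 - ε) * log N / log b⌋₊ with hw2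
  have hx0 : 0 ≤ (2 - ε) * log N / log b := by
    have : 0 ≤ 2 - ε := by linarith
    positivity
  have b1 : (w2 : ℝ) * log b ≤ (2 - ε) * log N := by
    have := Nat.floor_le hx0
    rwa [← hw2, le_div_iff₀ hlogb] at this
  have b2 : 1 ≤ w2 := by
    rw [hw2, Nat.one_le_floor_iff, le_div_iff₀ hlogb]
    nlinarith
  have b3 : (w2 : ℝ) ≤ 4 * log N := by
    have hw0 : (0 : ℝ) ≤ w2 := Nat.cast_nonneg w2
    nlinarith
  have b4 : (b : ℝ) ^ w2 * N ^ ε ≤ (N : ℝ) ^ 2 := by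
    rw [pow_eq_exp hb1, Real.rpow_def_of_pos hN0, ← Real.exp_log (show 0 < (N : ℝ) ^ 2 by positivity),
      ← Real.exp_add, Real.log_pow]
    refine Real.exp_le_exp.2 ?_
    push_cast
    linarith
  have hNε : 0 < (N : ℝ) ^ ε := Real.rpow_pos_of_pos hN0 _
  have hNε1 : 1 ≤ (N : ℝ) ^ ε := Real.one_le_rpow (by linarith) hε.le
  have b5 : (b : ℝ) ^ w2 ≤ L ^ 4 := by
    refine le_trans ?_ hN3
    calc (b : ℝ) ^ w2 ≤ (b : ℝ) ^ w2 * N ^ ε := le_mul_of_one_le_right (by positivity) hNε1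
      _ ≤ (N : ℝ) ^ 2 := b4
      _ ≤ (N : ℝ) ^ 3 * b := by
          have h7 : (1 : ℝ) ≤ N * b := by nlinarith
          calc (N : ℝ) ^ 2 ≤ (N : ℝ) ^ 2 * (N * b) := le_mul_of_one_le_right (by positivity) h7
            _ = (N : ℝ) ^ 3 * b := by ring
  set J : ℕ := N / (2 * w2) with hJ
  have hw2R : (1 : ℝ) ≤ w2 := by exact_mod_cast b2
  have c1 : (N : ℝ) / (4 * w2) ≤ J := by
    have h4 : (N : ℝ) / ((2 * w2 : ℕ) : ℝ) - 1 ≤ J := by
      have h5 : N < (N / (2 * w2) + 1) * (2 * w2) := by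
        have := Nat.lt_mul_div_succ N (show 0 < 2 * w2 by omega)
        rw [mul_comm]
        exact this
      have h6 : (N : ℝ) < ((J : ℝ) + 1) * ((2 * w2 : ℕ) : ℝ) := by exact_mod_cast h5
      have h7 : (0 : ℝ) < ((2 * w2 : ℕ) : ℝ) := by
        have : 0 < 2 * w2 := by omega
        exact_mod_cast this
      rw [← div_lt_iff₀ h7] at h6
      linarith
    have h5 : 1 ≤ (N : ℝ) / (4 * w2) := by
      rw [one_le_div (by positivity)]
      linarith
    have h6 : (N : ℝ) / ((2 * w2 : ℕ) : ℝ) = 2 * (N / (4 * w2)) := by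
      push_cast
      field_simp
      ring
    rw [h6] at h4
    linarith
  have c2 : 1 ≤ J := by
    have h5 : 1 ≤ (N : ℝ) / (4 * w2) := by
      rw [one_le_div (by positivity)]
      linarith
    have h6 : (1 : ℝ) ≤ J := h5.trans c1
    exact_mod_cast h6
  have c3 : w2 * (2 * J) ≤ N := by
    calc w2 * (2 * J) = (2 * w2) * (N / (2 * w2)) := by rw [hJ]; ring
      _ ≤ N := Nat.mul_div_le N (2 * w2)
  obtain ⟨U2, hU2m, hU2, hU2x⟩ := lower_part h2 P (b := b) (w := w2) (N := N) (J := J) hb1 b2 c2 c3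
    (fun F hF => hM2 P hP w2 N hNA b5 F hF)
  have hU2' : P.real U2 ≤ (N : ℝ) ^ (-(ε / 2)) / 2 := by
    set m : ℝ := (J : ℝ) ^ 2 / (b : ℝ) ^ w2 with hm
    have hbw : (0 : ℝ) < (b : ℝ) ^ w2 := by positivity
    have hlN : 0 < log (N : ℝ) := by linarith
    have h6 : (N : ℝ) ^ ε / (256 * log N ^ 2) ≤ m := by
      have h5 : (N : ℝ) / (16 * log N) ≤ J := by
        refine le_trans ?_ c1
        exact div_le_div_of_nonneg_left hN0.le (by positivity) (by linarith)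
      rw [hm, le_div_iff₀ hbw]
      calc (N : ℝ) ^ ε / (256 * log N ^ 2) * (b : ℝ) ^ w2
          = ((b : ℝ) ^ w2 * N ^ ε) / (256 * log N ^ 2) := by ring
        _ ≤ (N : ℝ) ^ 2 / (256 * log N ^ 2) := by gcongr
        _ = ((N : ℝ) / (16 * log N)) ^ 2 := by
            rw [div_pow, mul_pow]
            norm_num
        _ ≤ (J : ℝ) ^ 2 := by gcongr
    have hNh4 : 1 ≤ (N : ℝ) ^ (ε / 2) := by linarith
    have h5 : 1 ≤ m := by
      refine le_trans ?_ h6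
      rw [one_le_div (by positivity), hNε2]
      nlinarith
    have hm0 : 0 < m := by linarith
    have hm4 : 1 / m ≤ 256 * log N ^ 2 / (N : ℝ) ^ ε := by
      rw [div_le_div_iff₀ hm0 hNε, one_mul]
      rw [div_le_iff₀ (by positivity)] at h6
      linarith
    have hM0 : (0 : ℝ) ≤ (L ^ 1)⁻¹ := by positivity
    calc P.real U2 ≤ (m + (L ^ 1)⁻¹) / m ^ 2 := hU2
      _ = 1 / m + (L ^ 1)⁻¹ / m ^ 2 := by field_simp
      _ ≤ 256 * log N ^ 2 / (N : ℝ) ^ ε + (N : ℝ) ^ (-ε) := by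
          gcongr
          exact (div_le_self hM0 (one_le_pow₀ h5)).trans hΔ
      _ = (256 * log N ^ 2 + 1) / (N : ℝ) ^ ε := by
          rw [Real.rpow_neg hN0.le]
          field_simp
      _ ≤ (N : ℝ) ^ (-(ε / 2)) / 2 := by
          rw [div_le_iff₀ hNε, Real.rpow_neg hN0.le, hNε2]
          have : ((N : ℝ) ^ (ε / 2))⁻¹ / 2 * ((N : ℝ) ^ (ε / 2) * (N : ℝ) ^ (ε / 2)) =
              (N : ℝ) ^ (ε / 2) / 2 := by field_simp
          rw [this]
          linarith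
  refine ⟨U1 ∪ U2, hU1m.union hU2m, ?_, fun x hx => ⟨fun w hw => ?_, fun w hw => ?_⟩⟩
  · calc P.real (U1 ∪ U2) ≤ P.real U1 + P.real U2 := measureReal_union_le _ _
      _ ≤ (N : ℝ) ^ (-(ε / 2)) := by linarith
  · intro hrep
    refine hU1x x (fun h => hx (Or.inl h)) (rep_mono hb1 ?_ hrep)
    rw [hw1]
    refine Nat.ceil_le.2 ?_
    rw [div_le_iff₀ hlogb]
    exact hw
  · refine rep_mono hb1 ?_ (hU2x x (fun h => hx (Or.inr h)))
    rw [hw2]
    refine Nat.le_floor ?_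
    rw [le_div_iff₀ hlogb]
    exact hw

end Pool.Agent.N639.FG
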