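import Pool.Agent.N79.FSC3
import Pool.Agent.N711.FSL5
import Pool.Agent.N199.FSL2
import Pool.Agent.N639.FS.L1
import Pool.Agent.N639.FG.TR

/-!
# Project FS, general windows: the Poisson law

This follows `Pool.Agent.N79.FSC3` (helper79).
-/

set_option autoImplicit false

namespace Pool.Agent.N639.FG

open Finset Real MeasureTheory Filter Topology Pool.Agent.Y933.KD Pool.Agent.N639.FS
open Pool.Agent.N79.FSC3

theorem l5 : St_L5 := Pool.Agent.N711.FSL5.l5_of l1 Pool.Agent.N199.FSL2.l2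

theorem cg3 {b : ℕ} {Λ : ℕ → ℝ} {S : ℕ → Set (Measure ℝ)} (hb2 : 2 ≤ b) (hT : TG b Λ S)
    (r k : ℕ) (κ : ℝ) {ε : ℝ} (hκ : 0 < κ) (hε : 0 < ε) : ∃ N0 : ℕ, ∀ᶠ M : ℕ in atTop, ∀ P ∈ S M,
    ∀ (w N : ℕ) (W : Finset ℕ), N0 ≤ N → (N : ℝ) ≤ Λ M →
    (N : ℝ) ≤ κ * (b : ℝ) ^ w → (b : ℝ) ^ w ≤ κ * N → W ⊆ range (b ^ w) → W.card = r →
    NoOv b w W →
    |P.real {x | ((range N).filter (fun n => wd b w n x ∈ W)).card = k} -
      exp (-(r * (N / (b : ℝ) ^ w))) * (r * (N / (b : ℝ) ^ w)) ^ k / k.factorial| ≤ ε := by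
  have hb1 : 1 ≤ b := by omega
  set R : ℝ := r * κ with hR
  have hR0 : 0 ≤ R := by positivity
  obtain ⟨T, hT1, hT2⟩ := choose_T k R (ε / 4) hR0 (by positivity)
  set G : ℝ := (∑ i ∈ range (T + 1), (((k + i).choose k : ℕ) : ℝ)) + (((k + T).choose k : ℕ) : ℝ)
    with hG
  have hG0 : 0 < G := by
    have h3 : 0 < (((k + T).choose k : ℕ) : ℝ) := by
      exact_mod_cast Nat.choose_pos (Nat.le_add_right k T)
    have h4 : 0 ≤ ∑ i ∈ range (T + 1), (((k + i).choose k : ℕ) : ℝ) :=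
      Finset.sum_nonneg fun i _ => Nat.cast_nonneg _
    rw [hG]; linarith
  set e : ℝ := ε / (2 * G) with he
  have he0 : 0 < e := by positivity
  choose w0 hw0 using fun j : ℕ => l5 r j κ (e / 2) hκ (by positivity)
  have htr : ∀ᶠ M : ℕ in atTop, ∀ j ∈ range (k + T + 1), ∀ P ∈ S M, ∀ w N : ℕ, (N : ℝ) ≤ Λ M →
      (b : ℝ) ^ w ≤ (Λ M) ^ 2 → ∀ F : (Fin j → ℕ) → (Fin j → ℕ) → ℝ, (∀ n c, |F n c| ≤ 1) →
      |∫ x, ∑ n ∈ Fintype.piFinset (fun _ : Fin j => range N), F n (fun i => wd b w (n i) x) ∂P -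
        ∫ x, ∑ n ∈ Fintype.piFinset (fun _ : Fin j => range N), F n (fun i => wd b w (n i) x) ∂Leb|
        ≤ ((Λ M) ^ 1)⁻¹ := by
    rw [Filter.eventually_all_finset]
    intro j _
    exact trg hb1 hT j 2 1
  set w1 := (range (k + T + 1)).sup w0 with hw1
  set N0 : ℕ := ⌈κ * (b : ℝ) ^ w1⌉₊ + 1 with hN0
  refine ⟨N0, ?_⟩
  filter_upwards [htr, hT.2.1, hT.1.eventually_ge_atTop κ, hT.1.eventually_ge_atTop (2 / e),
    hT.1.eventually_ge_atTop 1] with M hM1 hMp hM3 hM4 hM5 P hP w N W hN hNA hNΛ hbΛ hW hWc hNo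
  have hPp : IsProbabilityMeasure P := hMp P hP
  have hb0 : (2 : ℝ) ≤ b := by exact_mod_cast hb2
  have hbw0 : (0 : ℝ) < (b : ℝ) ^ w := by positivity
  have hL0 : 0 < Λ M := by linarith
  have hL1 : ((Λ M) ^ 1)⁻¹ ≤ e / 2 := by
    rw [pow_one, inv_le_comm₀ hL0 (by positivity), inv_div]
    exact hM4
  -- `w` is large
  have hw : w1 ≤ w := by
    by_contra hc
    push Not at hc
    have h3 : (b : ℝ) ^ w ≤ (b : ℝ) ^ w1 := pow_le_pow_right₀ (by linarith) hc.le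
    have h4 : (N : ℝ) ≤ κ * (b : ℝ) ^ w1 := hNΛ.trans (mul_le_mul_of_nonneg_left h3 hκ.le)
    have h5 : κ * (b : ℝ) ^ w1 < N0 := by
      rw [hN0]
      push_cast
      have := Nat.le_ceil (κ * (b : ℝ) ^ w1)
      linarith
    have h6 : (N0 : ℝ) ≤ N := by exact_mod_cast hN
    linarith
  -- `b ^ w` is small
  have hbD : (b : ℝ) ^ w ≤ (Λ M) ^ 2 := by
    calc (b : ℝ) ^ w ≤ κ * N := hbΛ
      _ ≤ κ * Λ M := mul_le_mul_of_nonneg_left hNA hκ.le
      _ ≤ Λ M * Λ M := mul_le_mul_of_nonneg_right hM3 hL0.le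
      _ = (Λ M) ^ 2 := by ring
  set m : ℝ := r * (N / (b : ℝ) ^ w) with hm
  have hm0 : 0 ≤ m := by positivity
  have hmR : m ≤ R := by
    rw [hm, hR]
    refine mul_le_mul_of_nonneg_left ?_ (Nat.cast_nonneg _)
    rw [div_le_iff₀ hbw0]
    exact hNΛ
  have hmom : ∀ j ≤ k + T,
      |∫ x, (((XX b w N W x).choose j : ℕ) : ℝ) ∂P - m ^ j / j.factorial| ≤ e := by
    intro j hj
    have hjr : j ∈ range (k + T + 1) := mem_range.2 (by omega)
    have h3 : w0 j ≤ w := (Finset.le_sup (f := w0) hjr).trans hw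
    have h4 : |∫ x, (((XX b w N W x).choose j : ℕ) : ℝ) ∂Leb - m ^ j / j.factorial| ≤ e / 2 :=
      hw0 j b w N W hb2 h3 hNΛ hW hWc hNo
    have h7 := hM1 j hjr P hP w N hNA hbD (FF W j) (FF_le W j)
    simp only [sum_FF] at h7
    rw [integral_const_mul, integral_const_mul, ← mul_sub, abs_mul, Nat.abs_cast] at h7
    have h8 : (1 : ℝ) ≤ j.factorial := by exact_mod_cast Nat.one_le_iff_ne_zero.2 (Nat.factorial_ne_zero j)
    have h9 : |∫ x, (((XX b w N W x).choose j : ℕ) : ℝ) ∂P -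
        ∫ x, (((XX b w N W x).choose j : ℕ) : ℝ) ∂Leb| ≤ e / 2 := by
      refine le_trans ?_ (h7.trans hL1)
      exact le_mul_of_one_le_left (abs_nonneg _) h8
    calc _ = |(∫ x, (((XX b w N W x).choose j : ℕ) : ℝ) ∂P -
        ∫ x, (((XX b w N W x).choose j : ℕ) : ℝ) ∂Leb) +
          (∫ x, (((XX b w N W x).choose j : ℕ) : ℝ) ∂Leb - m ^ j / j.factorial)| := by
          congr 1; ring
      _ ≤ e / 2 + e / 2 := (abs_add_le _ _).trans (add_le_add h9 h4)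
      _ = e := by ring
  have h10 := final_bound P b w N W k T m R e hm0 hmR hmom
  refine h10.trans ?_
  have h11 : G * e = ε / 2 := by
    rw [he]; field_simp
  rw [← hG, h11]
  linarith

end Pool.Agent.N639.FG
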