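import Pool.Agent.N407.FS.C4
import Pool.Agent.N639.FG.C3

/-!
# Project FS, general windows: the complexity law

This follows `Pool.Agent.N407.FS.C4` (helper407).
-/

set_option autoImplicit false

namespace Pool.Agent.N639.FG

open Finset Real MeasureTheory Filter Topology Pool.Agent.Y933.KD Pool.Agent.N639.FS
open Pool.Agent.N407.FS

/-- words of the length of `log N` -/
lemma middleG {b : ℕ} {L : ℕ → ℝ} {S : ℕ → Set (Measure ℝ)} (hb2 : 2 ≤ b) (hT : TG b L S)
    {Λ ε ρ : ℝ} (hΛ : 0 < Λ) (hε : 0 < ε) (hρ : 0 < ρ) :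
    ∃ N0 : ℕ, ∀ᶠ M : ℕ in atTop, ∀ P ∈ S M, ∀ w N : ℕ, N0 ≤ N →
    (N : ℝ) ≤ L M → (N : ℝ) ≤ Λ * (b : ℝ) ^ w → (b : ℝ) ^ w ≤ Λ * N →
    ∃ U : Set ℝ, MeasurableSet U ∧ P.real U ≤ ρ ∧ ∀ x ∉ U,
      |ms b w N x - (b : ℝ) ^ w * exp (-(N / (b : ℝ) ^ w))| ≤ ε * (b : ℝ) ^ w := by
  set ε' : ℝ := ρ * ε ^ 2 / 4 with hε'
  have hε'0 : 0 < ε' := by positivity
  obtain ⟨N1, h1⟩ := cg3 hb2 hT 1 0 Λ hΛ hε'0
  obtain ⟨N2, h2⟩ := cg3 hb2 hT 2 0 Λ hΛ hε'0
  obtain ⟨w0, hw01, hw0⟩ := ev_w ε' hε'0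
  obtain ⟨N3, hN3⟩ := exists_nat_gt (Λ * (b : ℝ) ^ w0)
  refine ⟨max (max N1 N2) N3, ?_⟩
  filter_upwards [h1, h2, hT.2.1] with M h1 h2 hMp P hP w N hN hNA hNq hqN
  have hb1 : 1 ≤ b := by omega
  have hN1 : N1 ≤ N := le_trans (le_max_left _ _) (le_trans (le_max_left _ _) hN)
  have hN2 : N2 ≤ N := le_trans (le_max_right _ _) (le_trans (le_max_left _ _) hN)
  have hN3' : N3 ≤ N := le_trans (le_max_right _ _) hN
  have : IsProbabilityMeasure P := hMp P hP
  have hbR : (2 : ℝ) ≤ b := by exact_mod_cast hb2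
  have hb0 : (0 : ℝ) < b := by linarith
  -- the length is large
  have hw : w0 ≤ w := by
    by_contra hcon
    push Not at hcon
    have h3 : (b : ℝ) ^ w ≤ (b : ℝ) ^ w0 := pow_le_pow_right₀ (by linarith) hcon.le
    have h4 : (N3 : ℝ) ≤ N := by exact_mod_cast hN3'
    have h6 : Λ * (b : ℝ) ^ w ≤ Λ * (b : ℝ) ^ w0 := mul_le_mul_of_nonneg_left h3 hΛ.le
    linarith
  set e : ℝ := exp (-(N / (b : ℝ) ^ w)) with he
  have he0 : 0 ≤ e := (Real.exp_pos _).le
  have he1 : e ≤ 1 := by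
    rw [he, Real.exp_le_one_iff]
    have : 0 ≤ (N : ℝ) / (b : ℝ) ^ w := by positivity
    linarith
  have hone : ∀ c < b ^ w, NoOv b w {c} → |P.real (EvM b w N {c}) - e| ≤ ε' := by
    intro c hc hno
    have h3 := h1 P hP w N {c} hN1 hNA hNq hqN
      (by simpa using hc) (by simp) hno
    have h4 : exp (-((1 : ℕ) * (N / (b : ℝ) ^ w))) * ((1 : ℕ) * (N / (b : ℝ) ^ w)) ^ 0 /
        (Nat.factorial 0 : ℕ) = e := by
      simp [he]
    rw [h4] at h3
    exact h3
  have htwo : ∀ c < b ^ w, ∀ c' < b ^ w, c ≠ c' → NoOv b w {c, c'} →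
      |P.real (EvM b w N {c, c'}) - e ^ 2| ≤ ε' := by
    intro c hc c' hc' hne hno
    have h3 := h2 P hP w N {c, c'} hN2 hNA hNq hqN
      (by
        intro u hu
        rw [mem_insert, mem_singleton] at hu
        rcases hu with rfl | rfl
        · exact mem_range.2 hc
        · exact mem_range.2 hc') (card_pair hne) hno
    have h4 : exp (-((2 : ℕ) * (N / (b : ℝ) ^ w))) * ((2 : ℕ) * (N / (b : ℝ) ^ w)) ^ 0 /
        (Nat.factorial 0 : ℕ) = e ^ 2 := by
      rw [he, ← Real.exp_nat_mul]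
      simp
    rw [h4] at h3
    exact h3
  have hsm := second_moment P hb1 (by omega : 1 ≤ w) he0 he1 hε'0.le hone htwo
  set q : ℝ := (b : ℝ) ^ w with hq
  have hq0 : 0 < q := by positivity
  have hsm2 : 3 * ε' * q ^ 2 + 5 * q * (w * (b : ℝ) ^ (w / 2)) ≤ 4 * ε' * q ^ 2 := by
    have h6 : (b : ℝ) ^ (w / 2) * (b : ℝ) ^ (w / 2) ≤ q := by
      rw [← pow_add, hq]
      exact pow_le_pow_right₀ (by linarith) (by omega)
    have h7 := hw0 w hw
    have h8 : (2 : ℝ) ^ (w / 2) ≤ (b : ℝ) ^ (w / 2) := by gcongr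
    have h9 : 5 * (w : ℝ) * (b : ℝ) ^ (w / 2) ≤ ε' * q := by
      calc 5 * (w : ℝ) * (b : ℝ) ^ (w / 2) ≤ (ε' * 2 ^ (w / 2)) * (b : ℝ) ^ (w / 2) := by gcongr
        _ ≤ (ε' * (b : ℝ) ^ (w / 2)) * (b : ℝ) ^ (w / 2) := by gcongr
        _ = ε' * ((b : ℝ) ^ (w / 2) * (b : ℝ) ^ (w / 2)) := by ring
        _ ≤ ε' * q := by gcongr
    nlinarith
  refine ⟨{x | (ε * q) ^ 2 ≤ (ms b w N x - q * e) ^ 2}, ?_, ?_, ?_⟩
  · exact measurableSet_le measurable_const (((measurable_ms b w N).sub_const _).pow_const 2)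
  · have hint : Integrable (fun x => (ms b w N x - q * e) ^ 2) P := by
      refine Integrable.of_bound (C := (q + |q * e|) ^ 2)
        (((measurable_ms b w N).sub_const _).pow_const 2).aestronglyMeasurable
        (Eventually.of_forall fun x => ?_)
      rw [Real.norm_eq_abs, abs_pow]
      refine pow_le_pow_left₀ (abs_nonneg _) ?_ 2
      refine (abs_sub _ _).trans ?_
      gcongr
      have h6 := dw_add_ms hb1 w N x
      have h7 : 0 ≤ ms b w N x := by
        unfold ms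
        exact sum_nonneg fun c _ => Set.indicator_nonneg (fun _ _ => zero_le_one) _
      rw [abs_of_nonneg h7]
      have h8 : (0 : ℝ) ≤ dw b w N x := Nat.cast_nonneg _
      linarith
    have hmk := mul_meas_ge_le_integral_of_nonneg (μ := P)
      (f := fun x => (ms b w N x - q * e) ^ 2)
      (Eventually.of_forall fun x => sq_nonneg _) hint ((ε * q) ^ 2)
    have h6 : (ε * q) ^ 2 * P.real {x | (ε * q) ^ 2 ≤ (ms b w N x - q * e) ^ 2} ≤
        (ε * q) ^ 2 * ρ := by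
      calc _ ≤ 4 * ε' * q ^ 2 := hmk.trans (hsm.trans hsm2)
        _ = (ε * q) ^ 2 * ρ := by rw [hε']; ring
    exact le_of_mul_le_mul_left h6 (by positivity)
  · intro x hx
    simp only [Set.mem_ofPred_eq, not_le] at hx
    exact (abs_lt_of_sq_lt_sq hx (by positivity)).le

/-- **the complexity law** -/
theorem cg4 {b : ℕ} {L : ℕ → ℝ} {S : ℕ → Set (Measure ℝ)} (hb2 : 2 ≤ b) (hT : TG b L S)
    {ε : ℝ} (hε : 0 < ε) : ∃ N0 : ℕ, ∀ᶠ M : ℕ in atTop, ∀ P ∈ S M, ∀ N : ℕ, N0 ≤ N →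
    (N : ℝ) ≤ L M → ∃ U : Set ℝ, MeasurableSet U ∧ P.real U ≤ ε ∧ ∀ x ∉ U, ∀ w : ℕ,
      |(dw b w N x : ℝ) - (b : ℝ) ^ w * (1 - exp (-(N / (b : ℝ) ^ w)))| ≤
        ε * ((b : ℝ) ^ w * (1 - exp (-(N / (b : ℝ) ^ w)))) := by
  classical
  obtain ⟨Λn, hΛn⟩ := exists_nat_ge (4 / ε + 4)
  have hΛ4 : (4 : ℝ) ≤ Λn := by
    have : 0 < 4 / ε := by positivity
    linarith
  have hΛε : 1 / (Λn : ℝ) ≤ ε / 4 := by
    have h1 : 4 / ε ≤ Λn := by linarith
    rw [div_le_iff₀ hε] at h1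
    rw [div_le_iff₀ (by linarith)]
    linarith
  have hΛ0 : (0 : ℝ) < Λn := by linarith
  set Λ' : ℝ := ((b : ℝ) + 1) * Λn with hΛ'
  have hΛ'0 : 0 < Λ' := by positivity
  set κ : ℝ := 1 - exp (-(1 / Λ')) with hκ
  have hκ0 : 0 < κ := by
    have : exp (-(1 / Λ')) < 1 := by
      rw [Real.exp_lt_one_iff]
      have : 0 < 1 / Λ' := by positivity
      linarith
    linarith
  set ε₂ : ℝ := min (ε * κ) (min (ε / 4 / Λ') (ε / 4)) with hε₂
  have hε₂0 : 0 < ε₂ := lt_min (by positivity) (lt_min (by positivity) (by positivity))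
  have hε₂1 : ε₂ ≤ ε * κ := min_le_left _ _
  have hε₂2 : ε₂ ≤ ε / 4 / Λ' := (min_le_right _ _).trans (min_le_left _ _)
  have hε₂3 : ε₂ ≤ ε / 4 := (min_le_right _ _).trans (min_le_right _ _)
  set R : ℕ := (b * Λn) ^ 2 + 1 with hR
  have hR0 : (0 : ℝ) < R := by positivity
  obtain ⟨N1, h1⟩ := middleG hb2 hT hΛ'0 hε₂0 (show 0 < ε / R by positivity)
  refine ⟨max N1 (Λn + 2), ?_⟩
  filter_upwards [h1, hT.2.1] with M h1 hMp P hP N hN hNA
  have hN1 : N1 ≤ N := le_trans (le_max_left _ _) hN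
  have hN2 : Λn + 2 ≤ N := le_trans (le_max_right _ _) hN
  have : IsProbabilityMeasure P := hMp P hP
  have hb1 : 1 ≤ b := by omega
  have hbR : (2 : ℝ) ≤ b := by exact_mod_cast hb2
  have hb0 : (0 : ℝ) < b := by linarith
  have hΛn4 : 4 ≤ Λn := by exact_mod_cast hΛ4
  have hN0 : (0 : ℝ) < N := by
    have : 0 < N := by omega
    exact_mod_cast this
  -- the two lengths
  set wa : ℕ := Nat.clog b (Λn * N) with hwa
  set wc : ℕ := Nat.log b (N / Λn) with hwc
  have hND : N / Λn ≠ 0 := by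
    have : 0 < N / Λn := Nat.div_pos (by omega) (by omega)
    omega
  have a1 : Λn * N ≤ b ^ wa := Nat.le_pow_clog (by omega) _
  have hΛN : 1 < Λn * N := by nlinarith
  have a2 : b ^ wa ≤ b * (Λn * N) := by
    have h2 := Nat.pow_pred_clog_lt_self (show 1 < b by omega) hΛN
    rw [← hwa] at h2
    have h3 : 1 ≤ wa := by
      by_contra hcon
      have : wa = 0 := by omega
      rw [this, pow_zero] at a1
      omega
    have h4 : b ^ wa = b * b ^ (wa - 1) := by
      rw [← pow_succ']; congr 1; omega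
    rw [h4]
    exact Nat.mul_le_mul_left _ (by simpa [Nat.pred_eq_sub_one] using h2.le)
  have c1 : Λn * b ^ wc ≤ N := by
    have h2 : b ^ wc ≤ N / Λn := Nat.pow_log_le_self b hND
    calc Λn * b ^ wc ≤ Λn * (N / Λn) := Nat.mul_le_mul_left _ h2
      _ ≤ N := Nat.mul_div_le N Λn
  have c2 : N ≤ Λn * (b * b ^ wc) := by
    have h2 : N / Λn < b ^ (wc + 1) := Nat.lt_pow_succ_log_self (by omega) _
    have h3 := Nat.lt_mul_div_succ N (show 0 < Λn by omega)
    calc N ≤ Λn * (N / Λn + 1) := h3.le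
      _ ≤ Λn * b ^ (wc + 1) := Nat.mul_le_mul_left _ h2
      _ = Λn * (b * b ^ wc) := by rw [pow_succ']
  have hca : wc ≤ wa := by
    refine (Nat.pow_le_pow_iff_right (show 1 < b by omega)).1 ?_
    nlinarith
  have a1R : (Λn : ℝ) * N ≤ (b : ℝ) ^ wa := by exact_mod_cast a1
  have a2R : (b : ℝ) ^ wa ≤ b * (Λn * N) := by exact_mod_cast a2
  have c1R : (Λn : ℝ) * (b : ℝ) ^ wc ≤ N := by exact_mod_cast c1
  have c2R : (N : ℝ) ≤ Λn * (b * (b : ℝ) ^ wc) := by exact_mod_cast c2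
  have hmid : ∀ w ∈ Icc wc wa, (N : ℝ) ≤ Λ' * (b : ℝ) ^ w ∧ (b : ℝ) ^ w ≤ Λ' * N := by
    intro w hw
    rw [mem_Icc] at hw
    have h2 : (b : ℝ) ^ wc ≤ (b : ℝ) ^ w := pow_le_pow_right₀ (by linarith) hw.1
    have h3 : (b : ℝ) ^ w ≤ (b : ℝ) ^ wa := pow_le_pow_right₀ (by linarith) hw.2
    have h4 : (b : ℝ) * Λn ≤ Λ' := by
      rw [hΛ']
      gcongr
      linarith
    constructor
    · calc (N : ℝ) ≤ Λn * (b * (b : ℝ) ^ wc) := c2R
        _ = (b * Λn) * (b : ℝ) ^ wc := by ring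
        _ ≤ Λ' * (b : ℝ) ^ w := by gcongr
    · calc (b : ℝ) ^ w ≤ b * (Λn * N) := h3.trans a2R
        _ = (b * Λn) * N := by ring
        _ ≤ Λ' * N := by gcongr
  have hkey : ∀ w ∈ Icc wc wa, ∃ U : Set ℝ, MeasurableSet U ∧ P.real U ≤ ε / R ∧ ∀ x ∉ U,
      |ms b w N x - (b : ℝ) ^ w * exp (-(N / (b : ℝ) ^ w))| ≤ ε₂ * (b : ℝ) ^ w :=
    fun w hw => h1 P hP w N hN1 hNA (hmid w hw).1 (hmid w hw).2
  choose! U hUm hU hUx using hkey
  have hcard : (Icc wc wa).card ≤ R := by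
    rw [Nat.card_Icc]
    have h2 : b ^ wa = b ^ wc * b ^ (wa - wc) := by
      rw [← pow_add]; congr 1; omega
    have h3 : b ^ wc * b ^ (wa - wc) ≤ b ^ wc * (b * Λn) ^ 2 := by
      rw [← h2]
      calc b ^ wa ≤ b * (Λn * N) := a2
        _ ≤ b * (Λn * (Λn * (b * b ^ wc))) := by gcongr
        _ = b ^ wc * (b * Λn) ^ 2 := by ring
        _ ≤ b ^ wc * (b * Λn) ^ 2 := by gcongr
    have h4 : b ^ (wa - wc) ≤ (b * Λn) ^ 2 := Nat.le_of_mul_le_mul_left h3 (by positivity)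
    have h6 : wa - wc < b ^ (wa - wc) := Nat.lt_pow_self (by omega)
    omega
  refine ⟨⋃ w ∈ Icc wc wa, U w, Finset.measurableSet_biUnion _ fun w hw => hUm w hw, ?_, ?_⟩
  · calc P.real (⋃ w ∈ Icc wc wa, U w) ≤ ∑ w ∈ Icc wc wa, P.real (U w) :=
          measureReal_biUnion_finset_le _ _
      _ ≤ ∑ _w ∈ Icc wc wa, ε / R := sum_le_sum fun w hw => hU w hw
      _ = ((Icc wc wa).card : ℝ) * (ε / R) := by rw [sum_const, nsmul_eq_mul]
      _ ≤ R * (ε / R) := by gcongr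
      _ = ε := by field_simp
  · intro x hx w
    have hxw : ∀ v ∈ Icc wc wa, |ms b v N x - (b : ℝ) ^ v * exp (-(N / (b : ℝ) ^ v))| ≤
        ε₂ * (b : ℝ) ^ v := fun v hv => hUx v hv x fun h => hx (Set.mem_biUnion hv h)
    have hdm := dw_add_ms hb1 w N x
    set q : ℝ := (b : ℝ) ^ w with hq
    have hq0 : 0 < q := by positivity
    set lam : ℝ := N / q with hlam
    have hlam0 : 0 < lam := by positivity
    have hqlam : q * lam = N := by
      rw [hlam]; field_simp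
    have hms0 : 0 ≤ ms b w N x := by
      unfold ms
      exact sum_nonneg fun c _ => Set.indicator_nonneg (fun _ _ => zero_le_one) _
    by_cases hwcc : w < wc
    · -- short words
      have e1 := ms_mono hb1 hwcc.le N x
      have e2 := (abs_le.1 (hxw wc (mem_Icc.2 ⟨le_rfl, hca⟩))).2
      have hbc : (0 : ℝ) < (b : ℝ) ^ wc := by positivity
      have hlc : (Λn : ℝ) ≤ N / (b : ℝ) ^ wc := by
        rw [le_div_iff₀ hbc]; exact c1R
      have hexp : ∀ t : ℝ, (Λn : ℝ) ≤ t → exp (-t) ≤ 1 / Λn := by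
        intro t ht
        calc exp (-t) ≤ 1 / (1 + t) := exp_neg_le (by linarith)
          _ ≤ 1 / Λn := one_div_le_one_div_of_le hΛ0 (by linarith)
      have e3 : ms b wc N x ≤ (ε / 4 + ε / 4) * (b : ℝ) ^ wc := by
        have := (hexp _ hlc).trans hΛε
        nlinarith
      have e4 : ms b w N x ≤ (ε / 2) * q := by
        have e5 : ms b wc N x / (b : ℝ) ^ wc ≤ ε / 2 := by
          rw [div_le_iff₀ hbc]
          linarith
        have e6 := e1.trans e5
        rwa [div_le_iff₀ hq0] at e6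
      have e7 : (Λn : ℝ) ≤ lam := by
        refine hlc.trans ?_
        rw [hlam, hq]
        gcongr
        linarith
      have e8 := hexp _ e7
      have e9 : exp (-lam) ≤ 1 / 4 := by
        refine e8.trans ?_
        exact one_div_le_one_div_of_le (by norm_num) hΛ4
      have e10 : exp (-lam) ≤ ε / 4 := e8.trans hΛε
      have e11 : 0 < exp (-lam) := Real.exp_pos _
      have e12 : (dw b w N x : ℝ) - q * (1 - exp (-lam)) = q * exp (-lam) - ms b w N x := by
        linarith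
      rw [e12, abs_le]
      constructor <;> nlinarith
    by_cases hwaa : wa < w
    · -- long words
      have hbA : (0 : ℝ) < (b : ℝ) ^ wa := by positivity
      have e1 : (dw b wa N x : ℝ) ≤ dw b w N x := by exact_mod_cast dw_mono hb1 hwaa.le N x
      have e2 : (dw b w N x : ℝ) ≤ N := by exact_mod_cast dw_le_N b w N x
      have e3 := (abs_le.1 (hxw wa (mem_Icc.2 ⟨hca, le_rfl⟩))).2
      have e4 := dw_add_ms hb1 wa N x
      have hT : ∀ v : ℕ, wa ≤ v → (N : ℝ) * (1 - ε / 4) ≤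
          (b : ℝ) ^ v * (1 - exp (-(N / (b : ℝ) ^ v))) ∧
          (N : ℝ) / 2 ≤ (b : ℝ) ^ v * (1 - exp (-(N / (b : ℝ) ^ v))) := by
        intro v hv
        have hbv : (0 : ℝ) < (b : ℝ) ^ v := by positivity
        set t : ℝ := N / (b : ℝ) ^ v with ht
        have ht0 : 0 < t := by positivity
        have htv : (b : ℝ) ^ v * t = N := by rw [ht]; field_simp
        have ht1 : t ≤ 1 / Λn := by
          rw [ht, div_le_div_iff₀ hbv hΛ0]
          have : (b : ℝ) ^ wa ≤ (b : ℝ) ^ v := pow_le_pow_right₀ (by linarith) hv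
          linarith
        have h6 := exp_neg_le ht0.le
        have h7 : t * (1 - t) ≤ 1 - exp (-t) := by
          have h8 : 1 / (1 + t) ≤ 1 - t + t ^ 2 := by
            rw [div_le_iff₀ (by linarith)]
            have h9 : 0 < t ^ 3 := by positivity
            nlinarith
          nlinarith
        have h8 : (N : ℝ) * (1 - t) ≤ (b : ℝ) ^ v * (1 - exp (-t)) := by
          calc (N : ℝ) * (1 - t) = (b : ℝ) ^ v * (t * (1 - t)) := by rw [← htv]; ring
            _ ≤ _ := by gcongr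
        have h9 : t ≤ 1 / 2 := by
          refine ht1.trans ?_
          exact one_div_le_one_div_of_le (by norm_num) (by linarith)
        constructor
        · refine le_trans ?_ h8
          gcongr
          exact ht1.trans hΛε
        · refine le_trans ?_ h8
          nlinarith
      have e5 := (hT wa le_rfl).1
      have e6 := (hT w hwaa.le).1
      have e7 := (hT w hwaa.le).2
      have e8 : q * (1 - exp (-lam)) ≤ N := by
        have h6 : 1 - lam ≤ exp (-lam) := Real.one_sub_le_exp_neg lam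
        rw [← hqlam]
        gcongr
        linarith
      have e9 : ε₂ * (b : ℝ) ^ wa ≤ (ε / 4) * N := by
        calc ε₂ * (b : ℝ) ^ wa ≤ (ε / 4 / Λ') * (Λ' * N) := by
              gcongr
              exact (hmid wa (mem_Icc.2 ⟨hca, le_rfl⟩)).2
          _ = (ε / 4) * N := by field_simp
      have e10 : (N : ℝ) * (1 - ε / 2) ≤ dw b w N x := by nlinarith
      rw [abs_le]
      constructor <;> nlinarith
    · -- the middle
      have hw : w ∈ Icc wc wa := mem_Icc.2 ⟨by omega, by omega⟩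
      have e1 := hxw w hw
      have e2 := (hmid w hw).2
      have e3 : 1 / Λ' ≤ lam := by
        rw [hlam, div_le_div_iff₀ hΛ'0 hq0]
        linarith
      have e4 : κ ≤ 1 - exp (-lam) := by
        have : exp (-lam) ≤ exp (-(1 / Λ')) := Real.exp_le_exp.2 (by linarith)
        linarith
      have e5 : (dw b w N x : ℝ) - q * (1 - exp (-lam)) = -(ms b w N x - q * exp (-lam)) := by
        linarith
      rw [e5, abs_neg]
      calc |ms b w N x - q * exp (-lam)| ≤ ε₂ * q := e1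
        _ ≤ (ε * κ) * q := by gcongr
        _ ≤ (ε * (1 - exp (-lam))) * q := by gcongr
        _ = ε * (q * (1 - exp (-lam))) := by ring


end Pool.Agent.N639.FG
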