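import Pool.Agent.N639.FG.C2

/-!
# Project FS, general windows: all `N` at the same time

The powers of `2` and the last place are enough for monotone statements.
-/

set_option autoImplicit false

namespace Pool.Agent.N639.FG

open Finset Real MeasureTheory Filter Topology Pool.Agent.Y933.KD Pool.Agent.N639.FS

/-- the exceptional sets at the powers of `2` and at the last place -/
lemma grid {p ε : ℝ} (hp : 0 < p) (hε : 0 < ε) (N1 : ℕ) : ∃ j0 : ℕ, N1 ≤ 2 ^ j0 ∧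
    ∀ (P : Measure ℝ) [IsProbabilityMeasure P] (Λ : ℝ), (2 : ℝ) ^ j0 ≤ Λ → ∀ U : ℕ → Set ℝ,
      (∀ N : ℕ, N1 ≤ N → (N : ℝ) ≤ Λ → MeasurableSet (U N) ∧ P.real (U N) ≤ (N : ℝ) ^ (-p)) →
      ∃ V : Set ℝ, MeasurableSet V ∧ P.real V ≤ ε ∧
        (∀ j : ℕ, j0 ≤ j → (2 : ℝ) ^ j ≤ Λ → U (2 ^ j) ⊆ V) ∧ U ⌊Λ⌋₊ ⊆ V := by
  classical
  set r : ℝ := (2 : ℝ) ^ (-p) with hr
  have hr0 : 0 < r := by positivity
  have hr1 : r < 1 := Real.rpow_lt_one_of_one_lt_of_neg one_lt_two (by linarith)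
  have h1 : Tendsto (fun j : ℕ => r ^ j / (1 - r) + r ^ j * 2 ^ p) atTop (𝓝 (0 / (1 - r) + 0 * 2 ^ p)) := by
    have h2 := tendsto_pow_atTop_nhds_zero_of_lt_one hr0.le hr1
    exact (h2.div_const _).add (h2.mul_const _)
  rw [zero_div, zero_mul, add_zero] at h1
  obtain ⟨j1, hj1⟩ := eventually_atTop.1 (h1.eventually_le_const hε)
  refine ⟨max j1 N1, ?_, ?_⟩
  · calc N1 ≤ max j1 N1 := le_max_right _ _
      _ ≤ 2 ^ (max j1 N1) := Nat.lt_two_pow_self.le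
  intro P _ Λ hΛ U hU
  set j0 := max j1 N1 with hj0
  have hN1 : N1 ≤ 2 ^ j0 := (le_max_right _ _).trans Nat.lt_two_pow_self.le
  have hΛ0 : 0 < Λ := lt_of_lt_of_le (by positivity) hΛ
  set G : Finset ℕ := (range (⌊Λ⌋₊ + 1)).filter (fun j => j0 ≤ j ∧ (2 : ℝ) ^ j ≤ Λ) with hG
  have hfl : 2 ^ j0 ≤ ⌊Λ⌋₊ := Nat.le_floor (by push_cast; exact hΛ)
  have hfΛ : (⌊Λ⌋₊ : ℝ) ≤ Λ := Nat.floor_le hΛ0.le
  have hUl := hU ⌊Λ⌋₊ (hN1.trans hfl) hfΛ
  have hUj : ∀ j ∈ G, MeasurableSet (U (2 ^ j)) ∧ P.real (U (2 ^ j)) ≤ r ^ j := by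
    intro j hj
    rw [hG, mem_filter] at hj
    obtain ⟨_, h3, h4⟩ := hj
    have h5 := hU (2 ^ j) (hN1.trans (Nat.pow_le_pow_right (by norm_num) h3)) (by push_cast; exact h4)
    refine ⟨h5.1, h5.2.trans (le_of_eq ?_)⟩
    push_cast
    rw [hr, ← Real.rpow_natCast, ← Real.rpow_natCast, ← Real.rpow_mul (by norm_num),
      ← Real.rpow_mul (by norm_num)]
    congr 1
    ring
  refine ⟨(⋃ j ∈ G, U (2 ^ j)) ∪ U ⌊Λ⌋₊, ?_, ?_, ?_, ?_⟩
  · exact (Finset.measurableSet_biUnion _ fun j hj => (hUj j hj).1).union hUl.1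
  · have h3 : P.real (⋃ j ∈ G, U (2 ^ j)) ≤ r ^ j0 / (1 - r) := by
      refine (measureReal_biUnion_finset_le _ _).trans ((sum_le_sum fun j hj => (hUj j hj).2).trans ?_)
      have h4 : G ⊆ (Ico j0 (⌊Λ⌋₊ + 1)) := by
        intro j hj
        rw [hG, mem_filter] at hj
        exact mem_Ico.2 ⟨hj.2.1, mem_range.1 hj.1⟩
      calc ∑ j ∈ G, r ^ j ≤ ∑ j ∈ Ico j0 (⌊Λ⌋₊ + 1), r ^ j :=
            sum_le_sum_of_subset_of_nonneg h4 fun j _ _ => by positivity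
        _ ≤ r ^ j0 / (1 - r) := by
            rw [le_div_iff₀ (by linarith), sum_Ico_eq_sum_range]
            have h5 : ∑ k ∈ range (⌊Λ⌋₊ + 1 - j0), r ^ (j0 + k) =
                r ^ j0 * ∑ k ∈ range (⌊Λ⌋₊ + 1 - j0), r ^ k := by
              rw [mul_sum]
              exact sum_congr rfl fun k _ => pow_add _ _ _
            rw [h5, mul_assoc, geom_sum_mul_neg]
            have : 0 < r ^ (⌊Λ⌋₊ + 1 - j0) := by positivity
            have h6 : 0 < r ^ j0 := by positivity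
            nlinarith
    have h4 : P.real (U ⌊Λ⌋₊) ≤ r ^ j0 := by
      refine hUl.2.trans ?_
      have h5 : r ^ j0 = ((2 : ℝ) ^ j0) ^ (-p) := by
        rw [hr, ← Real.rpow_natCast, ← Real.rpow_natCast, ← Real.rpow_mul (by norm_num),
          ← Real.rpow_mul (by norm_num)]
        congr 1
        ring
      rw [h5]
      apply Real.rpow_le_rpow_of_nonpos (by positivity) _ (by linarith)
      exact_mod_cast hfl
    have h5 : r ^ j0 ≤ r ^ j0 * 2 ^ p := by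
      refine le_mul_of_one_le_right (by positivity) ?_
      exact Real.one_le_rpow (by norm_num) hp.le
    have h6 := hj1 j0 (le_max_left _ _)
    exact (measureReal_union_le _ _).trans (by linarith)
  · intro j hj hjΛ
    refine Set.subset_union_of_subset_left ?_ _
    refine Set.subset_biUnion_of_mem (u := fun j => U (2 ^ j)) ?_
    have h3 : j ≤ ⌊Λ⌋₊ := by
      have h4 : 2 ^ j ≤ ⌊Λ⌋₊ := Nat.le_floor (by push_cast; exact hjΛ)
      exact Nat.lt_two_pow_self.le.trans h4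
    rw [hG]
    exact mem_coe.2 (mem_filter.2 ⟨mem_range.2 (by omega), hj, hjΛ⟩)
  · exact Set.subset_union_right

lemma rep_mono_N {b w N N' : ℕ} (h : N ≤ N') {x : ℝ} (hr : Rep b w N x) : Rep b w N' x := by
  obtain ⟨i, hi, j, hj, hij, he⟩ := hr
  exact ⟨i, by omega, j, by omega, hij, he⟩

/-- neighbours of `N` on the grid -/
lemma neighbours {j0 N : ℕ} {Λ ε : ℝ} (hε : 0 < ε) (h0 : 2 ^ j0 ≤ N) (hN : (N : ℝ) ≤ Λ)
    (hj : 8 ≤ ε * (j0 : ℝ)) (hε1 : ε ≤ 1) :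
    ∃ j : ℕ, j0 ≤ j ∧ 2 ^ j ≤ N ∧ (2 : ℝ) ^ j ≤ Λ ∧ log N ≤ (1 + ε) * log ((2 : ℝ) ^ j) ∧
      ∃ N' : ℕ, ((∃ i, j0 ≤ i ∧ (2 : ℝ) ^ i ≤ Λ ∧ N' = 2 ^ i) ∨ N' = ⌊Λ⌋₊) ∧ N ≤ N' ∧
        log N' ≤ (1 + ε) * log N := by
  have hN0 : N ≠ 0 := by
    have : 0 < 2 ^ j0 := by positivity
    omega
  have hl2 := Real.log_two_gt_d9
  have hl2' := Real.log_two_lt_d9
  set j := Nat.log 2 N with hjdef
  have h1 : 2 ^ j ≤ N := Nat.pow_log_le_self 2 hN0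
  have h2 : N < 2 ^ (j + 1) := Nat.lt_pow_succ_log_self (by norm_num) N
  have h3 : j0 ≤ j := by
    by_contra hcon
    push Not at hcon
    have : 2 ^ (j + 1) ≤ 2 ^ j0 := Nat.pow_le_pow_right (by norm_num) hcon
    omega
  have h1R : (2 : ℝ) ^ j ≤ N := by exact_mod_cast h1
  have h2R : (N : ℝ) ≤ 2 ^ (j + 1) := by exact_mod_cast h2.le
  have hNp : (0 : ℝ) < N := lt_of_lt_of_le (by positivity) h1R
  have h3R : (j0 : ℝ) ≤ j := by exact_mod_cast h3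
  have hl : log ((2 : ℝ) ^ j) = j * log 2 := Real.log_pow _ _
  have hl' : log ((2 : ℝ) ^ (j + 1)) = (j + 1) * log 2 := by
    rw [Real.log_pow]; push_cast; ring
  have hj8 : 8 ≤ ε * j := hj.trans (by gcongr)
  have h4 : log N ≤ (j + 1) * log 2 := by
    rw [← hl']; exact Real.log_le_log hNp h2R
  have h5 : j * log 2 ≤ log N := by
    rw [← hl]; exact Real.log_le_log (by positivity) h1R
  refine ⟨j, h3, h1, h1R.trans hN, ?_, ?_⟩
  · rw [hl]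
    nlinarith
  · by_cases hc : (2 : ℝ) ^ (j + 1) ≤ Λ
    · refine ⟨2 ^ (j + 1), Or.inl ⟨j + 1, by omega, hc, rfl⟩, h2.le, ?_⟩
      push_cast
      rw [hl']
      nlinarith
    · refine ⟨⌊Λ⌋₊, Or.inr rfl, Nat.le_floor hN, ?_⟩
      push Not at hc
      have hfl : (⌊Λ⌋₊ : ℝ) ≤ Λ := Nat.floor_le (hNp.le.trans hN)
      have h6 : log (⌊Λ⌋₊ : ℝ) ≤ (j + 1) * log 2 := by
        rw [← hl']
        refine Real.log_le_log ?_ (hfl.trans hc.le)
        have : N ≤ ⌊Λ⌋₊ := Nat.le_floor hN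
        have : (N : ℝ) ≤ (⌊Λ⌋₊ : ℝ) := by exact_mod_cast this
        linarith
      nlinarith

/-- **the longest repeated word**, all `N` at the same time -/
theorem cg2s {b : ℕ} {Λ : ℕ → ℝ} {S : ℕ → Set (Measure ℝ)} (hb2 : 2 ≤ b) (hT : TG b Λ S) {ε : ℝ}
    (hε : 0 < ε) : ∃ N0 : ℕ, ∀ᶠ M : ℕ in atTop, ∀ P ∈ S M,
      ∃ V : Set ℝ, MeasurableSet V ∧ P.real V ≤ ε ∧ ∀ x ∉ V, ∀ N : ℕ, N0 ≤ N → (N : ℝ) ≤ Λ M →
        (∀ w : ℕ, (2 + ε) * log N ≤ w * log b → ¬ Rep b w N x) ∧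
        (∀ w : ℕ, w * log b ≤ (2 - ε) * log N → Rep b w N x) := by
  classical
  set ε1 : ℝ := min ε 1 / 4 with hε1
  have h0 : 0 < min ε 1 := lt_min hε one_pos
  have h01 : min ε 1 ≤ 1 := min_le_right _ _
  have h02 : min ε 1 ≤ ε := min_le_left _ _
  have e0 : 0 < ε1 := by positivity
  have e1 : ε1 ≤ 1 / 2 := by rw [hε1]; linarith
  have e2 : 4 * ε1 ≤ ε := by rw [hε1]; linarith
  have e3 : ε1 ≤ 1 / 4 := by rw [hε1]; linarith
  obtain ⟨N1, hN1⟩ := cg2 hb2 hT e0 e1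
  obtain ⟨j1, hj1⟩ := exists_nat_ge (8 / ε1)
  have hj1' : 8 ≤ ε1 * (j1 : ℝ) := by
    rw [div_le_iff₀ e0] at hj1
    linarith
  obtain ⟨j0, hj0, hgrid⟩ := grid (p := ε1 / 2) (by positivity) hε (max N1 (2 ^ j1))
  have hj01 : j1 ≤ j0 := by
    have : 2 ^ j1 ≤ 2 ^ j0 := (le_max_right _ _).trans hj0
    exact (Nat.pow_le_pow_iff_right (by norm_num)).1 this
  have hj08 : 8 ≤ ε1 * (j0 : ℝ) := hj1'.trans (by gcongr)
  refine ⟨2 ^ j0, ?_⟩
  filter_upwards [hN1, hT.1.eventually_ge_atTop ((2 : ℝ) ^ j0), hT.2.1] with M hM hΛ hMp P hP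
  have := hMp P hP
  have h1 : ∀ N : ℕ, ∃ U : Set ℝ, N1 ≤ N → (N : ℝ) ≤ Λ M → MeasurableSet U ∧
      P.real U ≤ (N : ℝ) ^ (-(ε1 / 2)) ∧ ∀ x ∉ U,
        (∀ w : ℕ, (2 + ε1) * log N ≤ w * log b → ¬ Rep b w N x) ∧
        (∀ w : ℕ, w * log b ≤ (2 - ε1) * log N → Rep b w N x) := by
    intro N
    by_cases h : N1 ≤ N ∧ (N : ℝ) ≤ Λ M
    · obtain ⟨U, hU⟩ := hM P hP N h.1 h.2
      exact ⟨U, fun _ _ => hU⟩
    · exact ⟨∅, fun h1 h2 => absurd ⟨h1, h2⟩ h⟩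
  choose U hU using h1
  have hN1j : N1 ≤ 2 ^ j0 := (le_max_left _ _).trans hj0
  obtain ⟨V, hV1, hV2, hV3, hV4⟩ := hgrid P (Λ M) hΛ U (fun N hN hNΛ =>
    ⟨(hU N ((le_max_left _ _).trans hN) hNΛ).1, (hU N ((le_max_left _ _).trans hN) hNΛ).2.1⟩)
  refine ⟨V, hV1, hV2, fun x hx N hN hNΛ => ?_⟩
  have hΛ0 : 0 < Λ M := lt_of_lt_of_le (by positivity) hΛ
  have hfl : 2 ^ j0 ≤ ⌊Λ M⌋₊ := Nat.le_floor (by push_cast; exact hΛ)
  obtain ⟨j, i1, i2, i3, i4, N', i5, i6, i7⟩ := neighbours e0 hN hNΛ hj08 (by linarith)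
  have hNR : (1 : ℝ) ≤ N := by
    have h3 : 1 ≤ 2 ^ j0 := Nat.one_le_two_pow
    exact_mod_cast h3.trans hN
  have hlN : 0 ≤ log (N : ℝ) := Real.log_nonneg hNR
  have hlj : 0 ≤ log ((2 : ℝ) ^ j) := Real.log_nonneg (one_le_pow₀ (by norm_num))
  constructor
  · intro w hw hrep
    have hN'1 : N1 ≤ N' ∧ (N' : ℝ) ≤ Λ M ∧ x ∉ U N' := by
      rcases i5 with ⟨i, k1, k2, rfl⟩ | rfl
      · refine ⟨hN1j.trans (Nat.pow_le_pow_right (by norm_num) k1), by push_cast; exact k2,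
          fun h => hx (hV3 i k1 k2 h)⟩
      · exact ⟨hN1j.trans hfl, Nat.floor_le hΛ0.le, fun h => hx (hV4 h)⟩
    have h3 := ((hU N' hN'1.1 hN'1.2.1).2.2 x hN'1.2.2).1 w ?_
    · exact h3 (rep_mono_N i6 hrep)
    · calc (2 + ε1) * log N' ≤ (2 + ε1) * ((1 + ε1) * log N) := by gcongr
        _ = ((2 + ε1) * (1 + ε1)) * log N := by ring
        _ ≤ (2 + ε) * log N := by
            refine mul_le_mul_of_nonneg_right ?_ hlN
            nlinarith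
        _ ≤ w * log b := hw
  · intro w hw
    have hxj : x ∉ U (2 ^ j) := fun h => hx (hV3 j i1 i3 h)
    have h3 := ((hU (2 ^ j) (hN1j.trans (Nat.pow_le_pow_right (by norm_num) i1))
      (by push_cast; exact i3)).2.2 x hxj).2 w ?_
    · exact rep_mono_N i2 h3
    · push_cast
      by_cases hε2 : ε < 2
      · calc w * log b ≤ (2 - ε) * log N := hw
          _ ≤ (2 - ε) * ((1 + ε1) * log ((2 : ℝ) ^ j)) := by
              refine mul_le_mul_of_nonneg_left i4 (by linarith)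
          _ = ((2 - ε) * (1 + ε1)) * log ((2 : ℝ) ^ j) := by ring
          _ ≤ (2 - ε1) * log ((2 : ℝ) ^ j) := by
              refine mul_le_mul_of_nonneg_right ?_ hlj
              nlinarith
      · push Not at hε2
        have h4 : (2 - ε) * log (N : ℝ) ≤ 0 := mul_nonpos_of_nonpos_of_nonneg (by linarith) hlN
        have h5 : 0 ≤ (2 - ε1) * log ((2 : ℝ) ^ j) := mul_nonneg (by linarith) hlj
        linarith

end Pool.Agent.N639.FG
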