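import Pool.Agent.N639.FS.C5
import Pool.Agent.N639.FG.Grid

/-!
# Project FS, general windows: the longest run of a digit
-/

set_option autoImplicit false

namespace Pool.Agent.N639.FG

open Finset Real MeasureTheory Filter Topology Pool.Agent.Y933.KD Pool.Agent.N639.FS

lemma ev_N5 (b : ℕ) {ε : ℝ} (hε : 0 < ε) : ∀ᶠ N : ℕ in atTop,
    2 * ((b : ℝ) + 1) ≤ (N : ℝ) ^ (ε / 2) ∧
    2 * (4 * (b : ℝ)) * (2 * (log N / log 2 + 1)) ≤ (N : ℝ) ^ (ε / 2) ∧
    2 * (log N / log 2 + 1) ≤ N ∧ (3 : ℝ) ≤ N := by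
  have h2 : ∀ C a : ℝ, 0 < a → ∀ᶠ N : ℕ in atTop, C * (log N / log 2 + 1) ≤ (N : ℝ) ^ a := by
    intro C a ha
    have e1 := log_pow_le (2 * (|C| / log 2)) 1 ha
    have e2 := log_pow_le (2 * |C|) 0 ha
    filter_upwards [e1, e2, eventually_ge_atTop 1] with N hN1 hN2 hN3
    rw [pow_one] at hN1
    rw [pow_zero, mul_one] at hN2
    have hl : 0 ≤ log (N : ℝ) := Real.log_natCast_nonneg N
    have hl2 : 0 < log 2 := Real.log_pos one_lt_two
    calc C * (log N / log 2 + 1) ≤ |C| * (log N / log 2 + 1) := by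
          gcongr; exact le_abs_self C
      _ = (2 * (|C| / log 2) * log N + 2 * |C|) / 2 := by field_simp
      _ ≤ ((N : ℝ) ^ a + (N : ℝ) ^ a) / 2 := by gcongr
      _ = (N : ℝ) ^ a := by ring
  have h3 := h2 2 1 one_pos
  have h4 : ∀ᶠ N : ℕ in atTop, 2 * ((b : ℝ) + 1) ≤ (N : ℝ) ^ (ε / 2) :=
    ((tendsto_rpow_atTop (by positivity : 0 < ε / 2)).comp
      tendsto_natCast_atTop_atTop).eventually_ge_atTop _
  filter_upwards [h4, h2 (2 * (4 * (b : ℝ)) * 2) (ε / 2) (by positivity), h3,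
    eventually_ge_atTop 3] with N a1 a2 a3 a4
  refine ⟨a1, by linarith, by rwa [Real.rpow_one] at a3, by exact_mod_cast a4⟩

theorem cg5 {b : ℕ} {Λ : ℕ → ℝ} {S : ℕ → Set (Measure ℝ)} (hb2 : 2 ≤ b) (hT : TG b Λ S) {ε : ℝ}
    (hε : 0 < ε) (hε1 : ε < 1) : ∃ N0 : ℕ, ∀ᶠ M : ℕ in atTop, ∀ P ∈ S M, ∀ N : ℕ, N0 ≤ N →
      (N : ℝ) ≤ Λ M → ∃ U : Set ℝ, MeasurableSet U ∧ P.real U ≤ (N : ℝ) ^ (-(ε / 2)) ∧ ∀ x ∉ U,
        ∀ w d : ℕ, d < b →
        ((1 + ε) * log N ≤ w * log b → ∀ n < N, wd b w n x ≠ rp b w d) ∧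
        (w * log b ≤ (1 - ε) * log N → ∃ n < N, wd b w n x = rp b w d) := by
  classical
  have hb1 : 1 ≤ b := by omega
  have hlog := hT.1
  obtain ⟨N1, hN1⟩ := eventually_atTop.1 (ev_N5 b hε)
  refine ⟨N1, ?_⟩
  filter_upwards [trg hb1 hT 1 3 1, trg hb1 hT 2 3 1, hlog.eventually_ge_atTop 1,
    hlog.eventually_ge_atTop (b : ℝ), hT.2.1] with M hM1 hM2 m3 m4 hMp P hP N hN hNA
  obtain ⟨n1, n2, n3, hNR⟩ := hN1 N hN
  have : IsProbabilityMeasure P := hMp P hP
  set L : ℝ := Λ M with hL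
  have hL0 : 0 < L := by linarith
  have hNp : (0 : ℝ) < N := by linarith
  have hbR : (2 : ℝ) ≤ b := by exact_mod_cast hb2
  have hbp : (0 : ℝ) < b := by linarith
  have hlb : 0 < log b := Real.log_pos (by linarith)
  have hlN : 0 < log N := Real.log_pos (by linarith)
  have hl2b : log 2 ≤ log b := Real.log_le_log (by norm_num) hbR
  have hl2 : 0 < log 2 := Real.log_pos one_lt_two
  set τ : ℝ := (L ^ 1)⁻¹ with hτ
  have hτ0 : 0 < τ := by positivity
  have hτN : τ ≤ (N : ℝ) ^ (-ε) := by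
    rw [hτ, pow_one, Real.rpow_neg hNp.le]
    apply inv_anti₀ (Real.rpow_pos_of_pos hNp _)
    calc (N : ℝ) ^ ε ≤ (N : ℝ) ^ (1 : ℝ) :=
          Real.rpow_le_rpow_of_exponent_le (by linarith) (by linarith)
      _ = N := Real.rpow_one _
      _ ≤ L := hNA
  have hNh : 0 < (N : ℝ) ^ (ε / 2) := Real.rpow_pos_of_pos hNp _
  have hNε2 : (N : ℝ) ^ ε = (N : ℝ) ^ (ε / 2) * (N : ℝ) ^ (ε / 2) := by
    rw [← Real.rpow_add hNp]
    congr 1
    ring
  have hNε : 0 < (N : ℝ) ^ ε := Real.rpow_pos_of_pos hNp _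
  -- the size of words
  have hsize : ∀ w : ℕ, (w : ℝ) * log b ≤ (1 + ε) * log N + log b → (b : ℝ) ^ w ≤ L ^ 3 := by
    intro w hw
    have h1 : (b : ℝ) ^ w ≤ (N : ℝ) ^ (1 + ε) * b := by
      rw [← Real.log_le_log_iff (by positivity) (by positivity), Real.log_pow,
        Real.log_mul (by positivity) (by positivity), Real.log_rpow hNp]
      exact hw
    have h2 : (N : ℝ) ^ (1 + ε) ≤ L ^ 2 := by
      calc (N : ℝ) ^ (1 + ε) ≤ (N : ℝ) ^ ((2 : ℕ) : ℝ) := by
            apply Real.rpow_le_rpow_of_exponent_le (by linarith)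
            push_cast
            linarith
        _ = (N : ℝ) ^ 2 := Real.rpow_natCast _ _
        _ ≤ L ^ 2 := by gcongr
    calc (b : ℝ) ^ w ≤ (N : ℝ) ^ (1 + ε) * b := h1
      _ ≤ L ^ 2 * L := by gcongr
      _ = L ^ 3 := by ring
  -- upper part
  set w1 : ℕ := ⌈(1 + ε) * log N / log b⌉₊ with hw1
  have hw1a : (1 + ε) * log N ≤ w1 * log b := by
    have := Nat.le_ceil ((1 + ε) * log N / log b)
    rw [← hw1, div_le_iff₀ hlb] at this
    exact this
  have hw1b : (w1 : ℝ) * log b ≤ (1 + ε) * log N + log b := by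
    have := Nat.ceil_lt_add_one (a := (1 + ε) * log N / log b) (by positivity)
    rw [← hw1] at this
    have h1 : (w1 : ℝ) * log b ≤ ((1 + ε) * log N / log b + 1) * log b := by gcongr
    calc (w1 : ℝ) * log b ≤ ((1 + ε) * log N / log b + 1) * log b := h1
      _ = (1 + ε) * log N + log b := by field_simp
  set R : ℕ → Prop := fun c => ∃ d < b, c = rp b w1 d with hR
  set f1 : ℝ → ℝ := cntS b w1 N (fun _ => True) R with hf1
  have hq1 : (N : ℝ) ^ (1 + ε) ≤ (b : ℝ) ^ w1 := by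
    rw [← Real.log_le_log_iff (by positivity) (by positivity), Real.log_pow, Real.log_rpow hNp]
    exact hw1a
  have hR1 : ((range (b ^ w1)).filter R).card ≤ b := by
    have h1 : ((range (b ^ w1)).filter R) ⊆ (range b).image (rp b w1) := by
      intro c hc
      rw [mem_filter] at hc
      obtain ⟨_, d, hd, rfl⟩ := hc
      exact mem_image_of_mem _ (mem_range.2 hd)
    have h2 := (card_le_card h1).trans card_image_le
    rw [card_range] at h2
    exact h2
  have hL1 : ∫ x, f1 x ∂Leb ≤ b * (N : ℝ) ^ (-ε) := by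
    rw [hf1, int_cntS hb1]
    refine (mul_le_mul_of_nonneg_right (Nat.cast_le.2 (card_filter_le _ _)) (by positivity)).trans ?_
    rw [card_range]
    calc (N : ℝ) * (((range (b ^ w1)).filter R).card / (b : ℝ) ^ w1)
        ≤ N * (b / (N : ℝ) ^ (1 + ε)) := by
          gcongr
      _ = b * (N : ℝ) ^ (-ε) := by
          rw [Real.rpow_add hNp, Real.rpow_one, Real.rpow_neg hNp.le]
          field_simp
  have hP1 : ∫ x, f1 x ∂P ≤ (N : ℝ) ^ (-(ε / 2)) / 2 := by
    have h1 := hM1 P hP w1 N hNA (hsize w1 hw1b)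
      (fun n c => if (fun _ : ℕ => True) (n 0) ∧ R (c 0) then 1 else 0) (fun n c => by
        split_ifs <;> simp)
    have h2 : ∀ x, f1 x = SF b w1 N 1
        (fun n c => if (fun _ : ℕ => True) (n 0) ∧ R (c 0) then 1 else 0) x :=
      fun x => cntS_eq b w1 N _ R x
    have h3 : |∫ x, f1 x ∂P - ∫ x, f1 x ∂Leb| ≤ τ := by
      simp only [h2]
      exact h1
    have h4 := (abs_le.1 h3).2
    have h5 : ((b : ℝ) + 1) * (N : ℝ) ^ (-ε) ≤ (N : ℝ) ^ (-(ε / 2)) / 2 := by
      rw [Real.rpow_neg hNp.le, Real.rpow_neg hNp.le, hNε2, mul_inv]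
      have h6 : ((b : ℝ) + 1) * ((N : ℝ) ^ (ε / 2))⁻¹ ≤ 1 / 2 := by
        rw [← div_eq_mul_inv, div_le_iff₀ hNh]
        linarith
      have h0 : 0 < ((N : ℝ) ^ (ε / 2))⁻¹ := by positivity
      nlinarith
    nlinarith
  -- lower part
  set w2 : ℕ := ⌊(1 - ε) * log N / log b⌋₊ with hw2
  set J : ℕ := N / w2 with hJ
  set g : ℕ → Prop := fun n => w2 ∣ n ∧ n < w2 * J with hg
  have hlow : 1 ≤ w2 → ∀ d < b, P.real {x | cntS b w2 N g (· = rp b w2 d) x = 0} ≤
      (N : ℝ) ^ (-(ε / 2)) / (2 * b) := by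
    intro hw2' d hd
    have hw2p : (0 : ℝ) < w2 := by exact_mod_cast (by omega : 0 < w2)
    have hpos : 1 ≤ (1 - ε) * log N / log b := by
      by_contra hcon
      push Not at hcon
      have : w2 = 0 := by
        rw [hw2]
        exact Nat.floor_eq_zero.2 hcon
      omega
    have hw2a : (w2 : ℝ) * log b ≤ (1 - ε) * log N := by
      have := Nat.floor_le (a := (1 - ε) * log N / log b) (by linarith)
      rw [← hw2, le_div_iff₀ hlb] at this
      exact this
    have hq2 : (b : ℝ) ^ w2 ≤ (N : ℝ) ^ (1 - ε) := by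
      rw [← Real.log_le_log_iff (by positivity) (by positivity), Real.log_pow, Real.log_rpow hNp]
      exact hw2a
    have hw2c : (w2 : ℝ) ≤ log N / log 2 := by
      rw [le_div_iff₀ hl2]
      have h1 : (w2 : ℝ) * log 2 ≤ w2 * log b := by gcongr
      nlinarith
    -- the number of places
    have hcard : ((range N).filter g).card = J := by
      have h1 : (range N).filter g = (range J).image (fun a => w2 * a) := by
        ext n
        simp only [mem_filter, mem_range, mem_image, hg]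
        constructor
        · rintro ⟨_, ⟨a, rfl⟩, h2⟩
          exact ⟨a, Nat.lt_of_mul_lt_mul_left h2, rfl⟩
        · rintro ⟨a, ha, rfl⟩
          have h2 : w2 * a < w2 * J := Nat.mul_lt_mul_of_pos_left ha (by omega)
          have h3 : w2 * J ≤ N := Nat.mul_div_le N w2
          exact ⟨by omega, ⟨a, rfl⟩, h2⟩
      rw [h1, card_image_of_injective _ (fun a c h => Nat.eq_of_mul_eq_mul_left (by omega) h),
        card_range]
    have hsep : ∀ n m, g n → g m → n < m → n + w2 ≤ m := by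
      rintro n m ⟨⟨a, rfl⟩, _⟩ ⟨⟨c, rfl⟩, _⟩ h
      have h1 : a < c := Nat.lt_of_mul_lt_mul_left h
      calc w2 * a + w2 = w2 * (a + 1) := by ring
        _ ≤ w2 * c := Nat.mul_le_mul_left _ h1
    have hr : rp b w2 d < b ^ w2 := rp_lt hd w2
    set μ : ℝ := (J : ℝ) / (b : ℝ) ^ w2 with hμ
    have hLm : ∫ x, cntS b w2 N g (· = rp b w2 d) x ∂Leb = μ := by
      rw [int_cntS hb1, hcard]
      have h1 : ((range (b ^ w2)).filter (· = rp b w2 d)).card = 1 := by
        rw [Finset.filter_eq' , if_pos (mem_range.2 hr), card_singleton]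
      rw [h1, hμ]
      push_cast
      ring
    have hL2 : ∫ x, cntS b w2 N g (· = rp b w2 d) x ^ 2 ∂Leb ≤ μ + μ ^ 2 := by
      have := int_cntS_sq hb1 w2 N g hsep hr
      rw [hcard] at this
      exact this
    have hμ1 : 2 * (4 * b) * (N : ℝ) ^ (ε / 2) ≤ μ := by
      have h1 : (N : ℝ) < (J + 1) * w2 := by
        have := Nat.lt_mul_div_succ N (by omega : 0 < w2)
        rw [← hJ] at this
        have h2 : ((N : ℕ) : ℝ) < ((w2 * (J + 1) : ℕ) : ℝ) := by exact_mod_cast this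
        push_cast at h2
        linarith
      have h2 : (2 : ℝ) * w2 ≤ N := by
        have : (2 : ℝ) * w2 ≤ 2 * (log N / log 2 + 1) := by linarith
        linarith
      have h3 : (N : ℝ) ≤ 2 * w2 * J := by nlinarith
      have h4 : (N : ℝ) ^ ε * (N : ℝ) ^ (1 - ε) = N := by
        rw [← Real.rpow_add hNp]
        have : ε + (1 - ε) = 1 := by ring
        rw [this, Real.rpow_one]
      have h5 : 0 < (N : ℝ) ^ (1 - ε) := by positivity
      have h6 : 2 * (4 * (b : ℝ)) * (2 * w2) ≤ (N : ℝ) ^ (ε / 2) := by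
        refine le_trans ?_ n2
        gcongr
        linarith
      have h7 : 2 * (4 * b) * (N : ℝ) ^ (ε / 2) * (N : ℝ) ^ (1 - ε) ≤ J := by
        have h9 : 2 * (w2 : ℝ) * (2 * (4 * b) * (N : ℝ) ^ (ε / 2) * (N : ℝ) ^ (1 - ε)) ≤
            2 * w2 * J := by
          calc 2 * (w2 : ℝ) * (2 * (4 * b) * (N : ℝ) ^ (ε / 2) * (N : ℝ) ^ (1 - ε)) =
              (2 * (4 * (b : ℝ)) * (2 * w2)) * ((N : ℝ) ^ (ε / 2) * (N : ℝ) ^ (1 - ε)) := by ring
            _ ≤ (N : ℝ) ^ (ε / 2) * ((N : ℝ) ^ (ε / 2) * (N : ℝ) ^ (1 - ε)) := by gcongr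
            _ = (N : ℝ) ^ ε * (N : ℝ) ^ (1 - ε) := by rw [hNε2]; ring
            _ = N := h4
            _ ≤ 2 * w2 * J := h3
        exact le_of_mul_le_mul_left h9 (by positivity)
      rw [hμ, le_div_iff₀ (by positivity)]
      calc 2 * (4 * b) * (N : ℝ) ^ (ε / 2) * (b : ℝ) ^ w2
          ≤ 2 * (4 * b) * (N : ℝ) ^ (ε / 2) * (N : ℝ) ^ (1 - ε) := by gcongr
        _ ≤ J := h7
    have hNh1 : 1 ≤ (N : ℝ) ^ (ε / 2) := Real.one_le_rpow (by linarith) (by positivity)
    have hμ8 : 1 ≤ μ := by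
      refine le_trans ?_ hμ1
      nlinarith
    have hμ0 : 0 < μ := by linarith
    have hszw : (w2 : ℝ) * log b ≤ (1 + ε) * log N + log b := by nlinarith
    have e1 : |∫ x, cntS b w2 N g (· = rp b w2 d) x ∂P -
        ∫ x, cntS b w2 N g (· = rp b w2 d) x ∂Leb| ≤ τ := by
      have key := hM1 P hP w2 N hNA (hsize w2 hszw)
        (fun n c => if g (n 0) ∧ c 0 = rp b w2 d then 1 else 0) (fun n c => by
        by_cases h : g (n 0) ∧ c 0 = rp b w2 d <;> simp [h])
      simp only [cntS_eq]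
      exact key
    have e2 : |∫ x, cntS b w2 N g (· = rp b w2 d) x ^ 2 ∂P -
        ∫ x, cntS b w2 N g (· = rp b w2 d) x ^ 2 ∂Leb| ≤ τ := by
      have key := hM2 P hP w2 N hNA (hsize w2 hszw)
        (fun n c => (if g (n 0) ∧ c 0 = rp b w2 d then 1 else 0) *
          (if g (n 1) ∧ c 1 = rp b w2 d then 1 else 0)) (fun n c => by
        by_cases h : g (n 0) ∧ c 0 = rp b w2 d <;>
          by_cases h' : g (n 1) ∧ c 1 = rp b w2 d <;> simp [h, h'])
      simp only [cntS_sq_eq]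
      exact key
    have h1 := prob_zero_le P (measurable_cntS b w2 N g (· = rp b w2 d))
      (cntS_le b w2 N g (· = rp b w2 d)) hμ0
    refine h1.trans ?_
    rw [hLm] at e1
    have e1' := abs_le.1 e1
    have e2' := abs_le.1 e2
    have hnum : ∫ x, cntS b w2 N g (· = rp b w2 d) x ^ 2 ∂P -
        2 * μ * ∫ x, cntS b w2 N g (· = rp b w2 d) x ∂P + μ ^ 2 ≤ μ + τ + 2 * μ * τ := by
      have a1 : ∫ x, cntS b w2 N g (· = rp b w2 d) x ^ 2 ∂P ≤ μ + μ ^ 2 + τ := by linarith [e2'.2]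
      have a2 : μ - τ ≤ ∫ x, cntS b w2 N g (· = rp b w2 d) x ∂P := by linarith [e1'.1]
      have a3 : 2 * μ * (μ - τ) ≤ 2 * μ * ∫ x, cntS b w2 N g (· = rp b w2 d) x ∂P := by gcongr
      nlinarith
    have hτ1 : τ ≤ 1 := by
      rw [hτ, pow_one]
      exact inv_le_one_of_one_le₀ m3
    have h4 : (∫ x, cntS b w2 N g (· = rp b w2 d) x ^ 2 ∂P -
        2 * μ * ∫ x, cntS b w2 N g (· = rp b w2 d) x ∂P + μ ^ 2) / μ ^ 2 ≤ 4 / μ := by
      rw [div_le_div_iff₀ (by positivity) hμ0]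
      have h5 : μ + τ + 2 * μ * τ ≤ 4 * μ := by nlinarith
      calc (∫ x, cntS b w2 N g (· = rp b w2 d) x ^ 2 ∂P -
          2 * μ * ∫ x, cntS b w2 N g (· = rp b w2 d) x ∂P + μ ^ 2) * μ ≤ (4 * μ) * μ := by
            gcongr; exact hnum.trans h5
        _ = 4 * μ ^ 2 := by ring
    refine h4.trans ?_
    rw [div_le_div_iff₀ hμ0 (by positivity), Real.rpow_neg hNp.le, ← div_eq_inv_mul,
      le_div_iff₀ hNh]
    linarith
  -- the exceptional set
  refine ⟨{x | 1 ≤ f1 x} ∪ (if 1 ≤ w2 then ⋃ d ∈ range b, {x | cntS b w2 N g (· = rp b w2 d) x = 0}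
    else ∅), ?_, ?_, ?_⟩
  · refine (measurableSet_le measurable_const (measurable_cntS _ _ _ _ _)).union ?_
    split_ifs
    · exact Finset.measurableSet_biUnion _ fun d _ =>
        measurableSet_eq_fun (measurable_cntS _ _ _ _ _) measurable_const
    · exact MeasurableSet.empty
  · refine (measureReal_union_le _ _).trans ?_
    have h1 : P.real {x | 1 ≤ f1 x} ≤ (N : ℝ) ^ (-(ε / 2)) / 2 :=
      (prob_one_le P (measurable_cntS _ _ _ _ _) (cntS_le _ _ _ _ _) (cntS_nonneg _ _ _ _ _)).trans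
        hP1
    have h2 : P.real (if 1 ≤ w2 then ⋃ d ∈ range b, {x | cntS b w2 N g (· = rp b w2 d) x = 0}
        else ∅) ≤ (N : ℝ) ^ (-(ε / 2)) / 2 := by
      split_ifs with h
      · refine (measureReal_biUnion_finset_le _ _).trans ?_
        calc ∑ d ∈ range b, P.real {x | cntS b w2 N g (· = rp b w2 d) x = 0}
            ≤ ∑ _d ∈ range b, (N : ℝ) ^ (-(ε / 2)) / (2 * b) :=
              sum_le_sum fun d hd => hlow h d (mem_range.1 hd)
          _ = b * ((N : ℝ) ^ (-(ε / 2)) / (2 * b)) := by rw [sum_const, card_range, nsmul_eq_mul]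
          _ = (N : ℝ) ^ (-(ε / 2)) / 2 := by field_simp
      · simp; positivity
    linarith
  · intro x hx w d hd
    simp only [Set.mem_union, not_or, Set.mem_ofPred_eq, not_le] at hx
    obtain ⟨hx1, hx2⟩ := hx
    constructor
    · intro hw n hn hcon
      have hww : w1 ≤ w := by
        rw [hw1]
        apply Nat.ceil_le.2
        rw [div_le_iff₀ hlb]
        exact hw
      obtain ⟨k, rfl⟩ := Nat.exists_eq_add_of_le hww
      have h1 : wd b w1 n x = rp b w1 d := by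
        rw [← wd_begin hb1 w1 k n x, hcon, rp_div hd]
      have h2 : 1 ≤ f1 x := by
        rw [hf1, cntS_def']
        have h3 : (1 : ℝ) = if True ∧ R (wd b w1 n x) then 1 else 0 := by
          rw [if_pos ⟨trivial, d, hd, h1⟩]
        exact h3.le.trans (single_le_sum
          (f := fun n => if True ∧ R (wd b w1 n x) then (1 : ℝ) else 0)
          (fun i _ => by split_ifs <;> simp) (mem_range.2 hn))
      linarith
    · intro hw
      by_cases hw20 : 1 ≤ w2
      · rw [if_pos hw20] at hx2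
        simp only [mem_range, Set.mem_iUnion, Set.mem_ofPred_eq, not_exists] at hx2
        have h3 := hx2 d hd
        have hww : w ≤ w2 := by
          rw [hw2]
          apply Nat.le_floor
          rw [le_div_iff₀ hlb]
          exact hw
        obtain ⟨k, hk⟩ := Nat.exists_eq_add_of_le hww
        have h4 : ∃ n ∈ range N, ¬ (if g n ∧ wd b w2 n x = rp b w2 d then (1 : ℝ) else 0) = 0 := by
          by_contra hcon
          push Not at hcon
          apply h3
          rw [cntS_def']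
          exact sum_eq_zero hcon
        obtain ⟨n, hn, hne⟩ := h4
        refine ⟨n, mem_range.1 hn, ?_⟩
        have h5 : g n ∧ wd b w2 n x = rp b w2 d := by
          by_contra hcon
          rw [if_neg hcon] at hne
          exact hne rfl
        have h6 := h5.2
        rw [hk] at h6
        rw [← wd_begin hb1 w k n x, h6, rp_div hd]
      · have hw0 : w = 0 := by
          by_contra hcon
          have h1 : 1 ≤ w := Nat.one_le_iff_ne_zero.2 hcon
          apply hw20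
          rw [hw2]
          apply Nat.le_floor
          rw [le_div_iff₀ hlb]
          have h2 : (1 : ℝ) ≤ w := by exact_mod_cast h1
          push_cast
          nlinarith
        subst hw0
        have hN0 : 0 < N := by exact_mod_cast hNp
        refine ⟨0, hN0, ?_⟩
        have h1 := wd_lt hb1 0 0 x
        have h2 := rp_lt hd 0
        rw [pow_zero] at h1 h2
        omega

/-- **the longest run of a digit**, all `N` at the same time -/
theorem cg5s {b : ℕ} {Λ : ℕ → ℝ} {S : ℕ → Set (Measure ℝ)} (hb2 : 2 ≤ b) (hT : TG b Λ S) {ε : ℝ}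
    (hε : 0 < ε) : ∃ N0 : ℕ, ∀ᶠ M : ℕ in atTop, ∀ P ∈ S M,
      ∃ V : Set ℝ, MeasurableSet V ∧ P.real V ≤ ε ∧ ∀ x ∉ V, ∀ N : ℕ, N0 ≤ N → (N : ℝ) ≤ Λ M →
        ∀ w d : ℕ, d < b →
        ((1 + ε) * log N ≤ w * log b → ∀ n < N, wd b w n x ≠ rp b w d) ∧
        (w * log b ≤ (1 - ε) * log N → ∃ n < N, wd b w n x = rp b w d) := by
  classical
  set ε1 : ℝ := min ε 1 / 4 with hε1
  have h0 : 0 < min ε 1 := lt_min hε one_pos
  have h01 : min ε 1 ≤ 1 := min_le_right _ _
  have h02 : min ε 1 ≤ ε := min_le_left _ _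
  have e0 : 0 < ε1 := by positivity
  have e1 : ε1 < 1 := by rw [hε1]; linarith
  have e2 : 4 * ε1 ≤ ε := by rw [hε1]; linarith
  have e3 : ε1 ≤ 1 / 4 := by rw [hε1]; linarith
  obtain ⟨N1, hN1⟩ := cg5 hb2 hT e0 e1
  obtain ⟨j1, hj1⟩ := exists_nat_ge (8 / ε1)
  have hj1' : 8 ≤ ε1 * (j1 : ℝ) := by
    rw [div_le_iff₀ e0] at hj1
    linarith
  obtain ⟨j0, hj0, hgrid⟩ := grid (p := ε1 / 2) (by positivity) hε (max N1 (2 ^ j1))
  have hj01 : j1 ≤ j0 := by
    have : 2 ^ j1 ≤ 2 ^ j0 := (le_max_right _ _).trans hj0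
    exact (Nat.pow_le_pow_iff_right (by norm_num)).1 this
  have hj08 : 8 ≤ ε1 * (j0 : ℝ) := hj1'.trans (by gcongr)
  refine ⟨2 ^ j0, ?_⟩
  filter_upwards [hN1, hT.1.eventually_ge_atTop ((2 : ℝ) ^ j0), hT.2.1] with M hM hΛ hMp P hP
  have := hMp P hP
  have h1 : ∀ N : ℕ, ∃ U : Set ℝ, N1 ≤ N → (N : ℝ) ≤ Λ M → MeasurableSet U ∧
      P.real U ≤ (N : ℝ) ^ (-(ε1 / 2)) ∧ ∀ x ∉ U,
        ∀ w d : ℕ, d < b →
        ((1 + ε1) * log N ≤ w * log b → ∀ n < N, wd b w n x ≠ rp b w d) ∧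
        (w * log b ≤ (1 - ε1) * log N → ∃ n < N, wd b w n x = rp b w d) := by
    intro N
    by_cases h : N1 ≤ N ∧ (N : ℝ) ≤ Λ M
    · obtain ⟨U, hU⟩ := hM P hP N h.1 h.2
      exact ⟨U, fun _ _ => hU⟩
    · exact ⟨∅, fun h1 h2 => absurd ⟨h1, h2⟩ h⟩
  choose U hU using h1
  have hN1j : N1 ≤ 2 ^ j0 := (le_max_left _ _).trans hj0
  obtain ⟨V, hV1, hV2, hV3, hV4⟩ := hgrid P (Λ M) hΛ U (fun N hN hNΛ =>
    ⟨(hU N ((le_max_left _ _).trans hN) hNΛ).1, (hU N ((le_max_left _ _).trans hN) hNΛ).2.1⟩)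
  refine ⟨V, hV1, hV2, fun x hx N hN hNΛ w d hd => ?_⟩
  have hΛ0 : 0 < Λ M := lt_of_lt_of_le (by positivity) hΛ
  have hfl : 2 ^ j0 ≤ ⌊Λ M⌋₊ := Nat.le_floor (by push_cast; exact hΛ)
  obtain ⟨j, i1, i2, i3, i4, N', i5, i6, i7⟩ := neighbours e0 hN hNΛ hj08 (by linarith)
  have hNR : (1 : ℝ) ≤ N := by
    have h3 : 1 ≤ 2 ^ j0 := Nat.one_le_two_pow
    exact_mod_cast h3.trans hN
  have hlN : 0 ≤ log (N : ℝ) := Real.log_nonneg hNR
  have hlj : 0 ≤ log ((2 : ℝ) ^ j) := Real.log_nonneg (one_le_pow₀ (by norm_num))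
  constructor
  · intro hw n hn
    have hN'1 : N1 ≤ N' ∧ (N' : ℝ) ≤ Λ M ∧ x ∉ U N' := by
      rcases i5 with ⟨i, k1, k2, rfl⟩ | rfl
      · refine ⟨hN1j.trans (Nat.pow_le_pow_right (by norm_num) k1), by push_cast; exact k2,
          fun h => hx (hV3 i k1 k2 h)⟩
      · exact ⟨hN1j.trans hfl, Nat.floor_le hΛ0.le, fun h => hx (hV4 h)⟩
    refine ((hU N' hN'1.1 hN'1.2.1).2.2 x hN'1.2.2 w d hd).1 ?_ n (by omega)
    calc (1 + ε1) * log N' ≤ (1 + ε1) * ((1 + ε1) * log N) := by gcongr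
      _ = ((1 + ε1) * (1 + ε1)) * log N := by ring
      _ ≤ (1 + ε) * log N := by
          refine mul_le_mul_of_nonneg_right ?_ hlN
          nlinarith
      _ ≤ w * log b := hw
  · intro hw
    have hxj : x ∉ U (2 ^ j) := fun h => hx (hV3 j i1 i3 h)
    obtain ⟨n, hn, hn'⟩ := ((hU (2 ^ j) (hN1j.trans (Nat.pow_le_pow_right (by norm_num) i1))
      (by push_cast; exact i3)).2.2 x hxj w d hd).2 (by
        push_cast
        by_cases hε2 : ε < 1
        · calc w * log b ≤ (1 - ε) * log N := hw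
            _ ≤ (1 - ε) * ((1 + ε1) * log ((2 : ℝ) ^ j)) := by
                refine mul_le_mul_of_nonneg_left i4 (by linarith)
            _ = ((1 - ε) * (1 + ε1)) * log ((2 : ℝ) ^ j) := by ring
            _ ≤ (1 - ε1) * log ((2 : ℝ) ^ j) := by
                refine mul_le_mul_of_nonneg_right ?_ hlj
                nlinarith
        · push Not at hε2
          have h4 : (1 - ε) * log (N : ℝ) ≤ 0 := mul_nonpos_of_nonpos_of_nonneg (by linarith) hlN
          have h5 : 0 ≤ (1 - ε1) * log ((2 : ℝ) ^ j) := mul_nonneg (by linarith) hlj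
          linarith)
    exact ⟨n, by omega, hn'⟩

end Pool.Agent.N639.FG
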