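import Pool.Agent.Y933.KG.AlgHat
import Pool.Agent.Y933.KG.Gd
import Pool.Agent.N639.FG.TR

/-!
# Project FS, general windows: the real algebraic numbers of given degree, ordered by height
-/

set_option autoImplicit false

namespace Pool.Agent.N639.FG

open Finset Polynomial Filter MeasureTheory
open Pool.Agent.Y933.KG
open Pool.Agent.Y933.KD (unif unif_prob integral_unif hat Good size_freq power)

/-- the real algebraic numbers of degree `q + 2` and height at most `H` -/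
noncomputable def AS (q H : ℕ) : Finset ℝ := (Alg_finite q H).toFinset

lemma mem_AS (q H : ℕ) (x : ℝ) : x ∈ AS q H ↔ x ∈ Alg (q + 2) H := by
  unfold AS
  rw [Set.Finite.mem_toFinset]

/-- the laws of `b ^ n G(x)` for the real algebraic numbers `x` of degree `q + 2` and height at most
`H`, where `n` is about `δ₀ log H` and the polynomial `G` has degree `1, …, q + 1` and moderate
coefficients -/
def SAl (q b : ℕ) (δ₀ κ : ℝ) (H : ℕ) : Set (Measure ℝ) :=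
  {P | (AS q H).Nonempty ∧ ∃ G : ℝ[X], 1 ≤ G.natDegree ∧ G.natDegree ≤ q + 1 ∧
    (∀ i, 1 ≤ i → |G.coeff i| ≤ (H : ℝ) ^ κ) ∧ (H : ℝ) ^ (-κ) ≤ |G.leadingCoeff| ∧
    P = unif (AS q H) (fun x => (b : ℝ) ^ ⌈δ₀ * Real.log H⌉₊ * G.eval x)}

lemma SAl_prob (q b : ℕ) (δ₀ κ : ℝ) (H : ℕ) (_hH : 1 ≤ H) (P : Measure ℝ)
    (hP : P ∈ SAl q b δ₀ κ H) : IsProbabilityMeasure P := by
  obtain ⟨h2, G, _, _, _, _, rfl⟩ := hP
  exact unif_prob h2 _

theorem good_Al (q b : ℕ) (hb : 2 ≤ b) {δ₀ : ℝ} (hδ₀ : 0 < δ₀) (A : ℝ) :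
    ∃ κ : ℝ, 0 < κ ∧ (∃ H0 : ℕ, ∀ H : ℕ, H0 ≤ H → (AS q H).Nonempty) ∧
      ∀ k : ℕ, Good b k A (SAl q b δ₀ κ) := by
  have hbR : (2 : ℝ) ≤ b := by exact_mod_cast hb
  have hlb : 0 < Real.log b := Real.log_pos (by linarith)
  set W : ℝ := 1 + 1 + A * Real.log b + (1 + δ₀ * Real.log b) with hW
  set K : ℕ := ⌈W⌉₊ + 1 with hK
  set δ1 : ℝ := δ₀ * Real.log b with hδ1
  have hδ10 : 0 < δ1 := by positivity
  obtain ⟨κ, hκ, ρ, hρ, H0, hH0⟩ := alg_hat q K (by omega) δ1 hδ10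
  set ρ' : ℝ := min ρ 1 with hρ'
  have hρ'0 : 0 < ρ' := lt_min hρ one_pos
  have hρ'1 : ρ' ≤ 1 := min_le_right _ _
  have hρ'2 : ρ' ≤ ρ := min_le_left _ _
  refine ⟨κ, hκ, ⟨H0, fun H hH => ?_⟩, fun k => ⟨ρ', hρ'0, max H0 (max (max k b) 2), ?_⟩⟩
  · obtain ⟨x, hx⟩ := (hH0 H hH).1
    exact ⟨x, (mem_AS q H x).2 hx⟩
  intro H hH P hP bb n h hbb hn hh hne
  obtain ⟨hne0, G, hG1, hG2, hG3, hG4, rfl⟩ := hP
  have hHH0 : H0 ≤ H := le_of_max_le_left hH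
  have hHk : k ≤ H := le_of_max_le_left (le_of_max_le_left (le_of_max_le_right hH))
  have hHb : b ≤ H := le_of_max_le_right (le_of_max_le_left (le_of_max_le_right hH))
  have h2 : 2 ≤ H := le_of_max_le_right (le_of_max_le_right hH)
  have hHR : (2 : ℝ) ≤ H := by exact_mod_cast h2
  have hH1R : (1 : ℝ) ≤ H := by linarith
  have hHp : (0 : ℝ) < H := by linarith
  have hlogH : 0 < Real.log H := Real.log_pos (by linarith)
  set l : ℤ := ∑ i, h i * (bb i : ℤ) ^ n i with hl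
  have hl1 : (1 : ℝ) ≤ |(l : ℝ)| := by
    have : (1 : ℤ) ≤ |l| := Int.one_le_abs hne
    exact_mod_cast this
  have hl2 : |(l : ℝ)| ≤ (H : ℝ) ^ (1 + 1 + A * Real.log b) := by
    refine (size_freq (by omega) hHk bb n h hbb hn hh).trans ?_
    apply Real.rpow_le_rpow_of_exponent_le hH1R
    linarith
  set n0 : ℕ := ⌈δ₀ * Real.log H⌉₊ with hn0
  have hb1 : (H : ℝ) ^ δ1 ≤ (b : ℝ) ^ n0 := by
    have e1 : (H : ℝ) ^ δ1 = (b : ℝ) ^ (δ₀ * Real.log H) := by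
      rw [Real.rpow_def_of_pos hHp, Real.rpow_def_of_pos (by linarith), hδ1]
      congr 1
      ring
    rw [e1, ← Real.rpow_natCast]
    exact Real.rpow_le_rpow_of_exponent_le (by linarith) (Nat.le_ceil _)
  have hb2 : (b : ℝ) ^ n0 ≤ (H : ℝ) ^ (1 + δ1) := by
    have h3 : (n0 : ℝ) ≤ δ₀ * Real.log H + 1 := (Nat.ceil_lt_add_one (by positivity)).le
    calc (b : ℝ) ^ n0 = (b : ℝ) ^ ((n0 : ℕ) : ℝ) := (Real.rpow_natCast _ _).symm
      _ ≤ (b : ℝ) ^ (δ₀ * Real.log H + 1) := Real.rpow_le_rpow_of_exponent_le (by linarith) h3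
      _ = (H : ℝ) ^ δ1 * b := by
          rw [Real.rpow_add (by linarith), Real.rpow_one, Real.rpow_def_of_pos hHp,
            Real.rpow_def_of_pos (by linarith), hδ1]
          congr 2
          ring
      _ ≤ (H : ℝ) ^ δ1 * (H : ℝ) ^ (1 : ℝ) := by
          rw [Real.rpow_one]
          have : (b : ℝ) ≤ H := by exact_mod_cast hHb
          gcongr
      _ = _ := by rw [← Real.rpow_add hHp, add_comm]
  have hθ1 : (H : ℝ) ^ δ1 ≤ |(l : ℝ) * (b : ℝ) ^ n0| := by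
    rw [abs_mul, abs_of_nonneg (by positivity : (0 : ℝ) ≤ (b : ℝ) ^ n0)]
    have : 0 ≤ (b : ℝ) ^ n0 := by positivity
    nlinarith
  have hθ2 : |(l : ℝ) * (b : ℝ) ^ n0| ≤ (H : ℝ) ^ (K : ℝ) := by
    rw [abs_mul, abs_of_nonneg (by positivity : (0 : ℝ) ≤ (b : ℝ) ^ n0)]
    calc |(l : ℝ)| * (b : ℝ) ^ n0 ≤ (H : ℝ) ^ (1 + 1 + A * Real.log b) * (H : ℝ) ^ (1 + δ1) := by
          gcongr
      _ = (H : ℝ) ^ W := by rw [← Real.rpow_add hHp, hW, hδ1]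
      _ ≤ (H : ℝ) ^ (K : ℝ) := by
          apply Real.rpow_le_rpow_of_exponent_le hH1R
          rw [hK]
          push_cast
          linarith [Nat.le_ceil W]
  have key := (hH0 H hHH0).2 G hG1 hG2 hG3 hG4 _ hθ1 hθ2 (AS q H) (mem_AS q H)
  unfold hat
  rw [integral_unif]
  have hcard0 : (0 : ℝ) < ((AS q H).card : ℝ) := by exact_mod_cast hne0.card_pos
  have e1 : ∑ x ∈ AS q H, Pool.Agent.Y933.KD.e (l * ((b : ℝ) ^ n0 * G.eval x)) =
      ∑ x ∈ AS q H, Pool.Agent.H469R2.NK.e ((l : ℝ) * (b : ℝ) ^ n0 * G.eval x) := by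
    refine sum_congr rfl fun p _ => ?_
    rw [← mul_assoc]
    rfl
  rw [e1, norm_mul, norm_div, norm_one, Complex.norm_natCast]
  rw [one_div, inv_mul_le_iff₀ hcard0]
  refine key.trans ?_
  gcongr

theorem tests_Al (q b : ℕ) (hb : 2 ≤ b) {δ₀ : ℝ} (hδ₀ : 0 < δ₀) (A : ℝ) :
    ∃ κ : ℝ, 0 < κ ∧ (∃ H0 : ℕ, ∀ H : ℕ, H0 ≤ H → (AS q H).Nonempty) ∧
      Pool.Agent.N639.FS.Tests b A (SAl q b δ₀ κ) := by
  obtain ⟨κ, hκ, hne, h⟩ := good_Al q b hb hδ₀ A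
  exact ⟨κ, hκ, hne, SAl_prob q b δ₀ κ, fun k => power (SAl_prob q b δ₀ κ) (h k)⟩

theorem tg_SAl (q b : ℕ) (hb : 2 ≤ b) {δ₀ : ℝ} (hδ₀ : 0 < δ₀) {A : ℝ} (hA : 0 < A) :
    ∃ κ : ℝ, 0 < κ ∧ (∃ H0 : ℕ, ∀ H : ℕ, H0 ≤ H → (AS q H).Nonempty) ∧
      TG b (fun H => 2 * (A * Real.log H)) (SAl q b δ₀ κ) := by
  obtain ⟨κ, hκ, hne, h⟩ := tests_Al q b hb hδ₀ (2 * A)
  refine ⟨κ, hκ, hne, ?_⟩
  have := tg_of_tests (A := 2 * A) (by positivity) h (b := b) (by omega) le_rfl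
  simpa only [mul_assoc] using this

end Pool.Agent.N639.FG
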