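import Pool.Agent.N586.RT.Hat
import Pool.Agent.N586.RT.Cl
import Pool.Agent.N639.FG.TR

/-!
# Project FS, general windows: the family of the roots `f(m ^ (1 / d)) / c`
-/

set_option autoImplicit false

namespace Pool.Agent.N639.FG

open Finset Real MeasureTheory Filter Topology Polynomial
open Pool.Agent.Y933.KD Pool.Agent.N639.FS

/-- the uniform measures on the numbers `f(m ^ (1 / d)) / c`, `M < m ≤ 2 M` -/
def SD (d M : ℕ) : Set (Measure ℝ) :=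
  {P | ∃ (f : ℤ[X]) (c : ℕ), 1 ≤ f.natDegree ∧ f.natDegree < d ∧
    (∀ i, |(f.coeff i : ℝ)| ≤ Real.exp ((log M) ^ (4 / 5 : ℝ))) ∧ 1 ≤ c ∧
    (c : ℝ) ≤ Real.exp ((log M) ^ (4 / 5 : ℝ)) ∧
    P = unif (Finset.Ioc M (2 * M)) (fun m : ℕ => aeval ((m : ℝ) ^ (1 / (d : ℝ))) f / c)}

lemma exp_small (C κ : ℝ) (hκ : 0 < κ) (D : ℕ) (a : ℝ) (ha : 0 < a) : ∀ᶠ t : ℝ in atTop,
    C * Real.exp (-(κ * t ^ a)) ≤ ((t ^ (2 : ℝ)) ^ D)⁻¹ := by
  have h1 : Tendsto (fun y : ℝ => max C 0 * (y ^ (2 * D / a) * Real.exp (-κ * y))) atTop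
      (𝓝 (max C 0 * 0)) :=
    (tendsto_rpow_mul_exp_neg_mul_atTop_nhds_zero (2 * D / a) κ hκ).const_mul _
  rw [mul_zero] at h1
  have h2 : Tendsto (fun t : ℝ => t ^ a) atTop atTop := tendsto_rpow_atTop ha
  filter_upwards [(h1.comp h2).eventually_le_const one_pos, eventually_gt_atTop 0] with t h3 h4
  simp only [Function.comp_apply] at h3
  have h5 : (t ^ a) ^ (2 * D / a) = (t ^ (2 : ℝ)) ^ D := by
    rw [← Real.rpow_mul h4.le, ← Real.rpow_natCast (t ^ (2 : ℝ)), ← Real.rpow_mul h4.le]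
    congr 1
    field_simp
  rw [h5] at h3
  have h6 : (0 : ℝ) < (t ^ (2 : ℝ)) ^ D := by positivity
  rw [← one_div, le_div_iff₀ h6]
  calc C * Real.exp (-(κ * t ^ a)) * (t ^ (2 : ℝ)) ^ D
      ≤ max C 0 * Real.exp (-(κ * t ^ a)) * (t ^ (2 : ℝ)) ^ D := by gcongr; exact le_max_left _ _
    _ = max C 0 * ((t ^ (2 : ℝ)) ^ D * Real.exp (-κ * t ^ a)) := by
        rw [neg_mul]; ring
    _ ≤ 1 := h3

theorem tg_SD (d : ℕ) (hd : 2 ≤ d) : ∃ δ : ℝ, 0 < δ ∧ ∀ b : ℕ, 2 ≤ b →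
    TG b (fun M => 2 * (log M) ^ (1 + δ)) (SD d) := by
  obtain ⟨δ, hδ, h1⟩ := Pool.Agent.N586.RT.hat_small d hd
  set δ' : ℝ := min (δ / 2) (1 / 2) with hδ'
  have hδ'0 : 0 < δ' := lt_min (by positivity) (by norm_num)
  have hδ'1 : δ' < δ := (min_le_left _ _).trans_lt (by linarith)
  have hδ'2 : δ' ≤ 1 / 2 := min_le_right _ _
  refine ⟨δ', hδ'0, fun b hb => ?_⟩
  have hlog : Tendsto (fun M : ℕ => log (M : ℝ)) atTop atTop :=
    Real.tendsto_log_atTop.comp tendsto_natCast_atTop_atTop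
  have hprob : ∀ M : ℕ, 1 ≤ M → ∀ P ∈ SD d M, IsProbabilityMeasure P := by
    intro M hM P hP
    obtain ⟨f, c, _, _, _, _, _, rfl⟩ := hP
    refine unif_prob ?_ _
    rw [Finset.nonempty_Ioc]
    omega
  refine ⟨?_, ?_, ?_⟩
  · exact ((tendsto_rpow_atTop (by positivity)).comp hlog).const_mul_atTop (by norm_num)
  · filter_upwards [eventually_ge_atTop 1] with M hM P hP
    exact hprob M hM P hP
  · intro k D
    obtain ⟨M0, hM0⟩ := h1 b k
    have hκ : (0 : ℝ) < 1 / (3 * k + 4) := by positivity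
    have h2 := exp_small ((3 ^ k + k * 29) * 2 ^ D) (1 / (3 * k + 4)) hκ D (9 / 10) (by norm_num)
    filter_upwards [eventually_ge_atTop M0, eventually_ge_atTop 1, hlog.eventually h2,
      hlog.eventually_ge_atTop 1, Pool.Agent.N586.RT.logpow (by linarith : 1 + δ' < 1 + δ) 2]
      with M m1 m2 m3 m4 m5 P hP n hn u v hu hv
    have := hprob M m2 P hP
    obtain ⟨f, c, hf1, hf2, hf3, hc1, hc2, rfl⟩ := hP
    have hL0 : 0 < log (M : ℝ) := by linarith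
    have key := Pool.Agent.N586.RT.events_test (b := b) (by omega)
      (τ := (log M) ^ (9 / 10 : ℝ)) (by positivity)
      (unif (Finset.Ioc M (2 * M)) (fun m : ℕ => aeval ((m : ℝ) ^ (1 / (d : ℝ))) f / c)) n
      (fun h hh hne => hM0 M m1 f c hf1 hf2 hf3 hc1 hc2 b n h hb le_rfl
        (fun i => (hn i).trans m5) hne hh) u v hu hv
    refine key.trans ?_
    have h3 : (2 * (log (M : ℝ)) ^ (1 + δ')) ^ D ≤ 2 ^ D * ((log (M : ℝ)) ^ (2 : ℝ)) ^ D := by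
      rw [mul_pow]
      gcongr
      linarith
    have h4 : (0 : ℝ) < (2 * (log (M : ℝ)) ^ (1 + δ')) ^ D := by positivity
    have h5 : (0 : ℝ) < ((log (M : ℝ)) ^ (2 : ℝ)) ^ D := by positivity
    rw [← one_div, le_div_iff₀ h4]
    rw [← one_div, le_div_iff₀ h5] at m3
    have h6 : (log (M : ℝ)) ^ (9 / 10 : ℝ) / (3 * k + 4) =
        1 / (3 * k + 4) * (log (M : ℝ)) ^ (9 / 10 : ℝ) := by ring
    rw [h6]
    calc (3 ^ k + (k : ℝ) * 29) * Real.exp (-(1 / (3 * k + 4) * (log (M : ℝ)) ^ (9 / 10 : ℝ))) *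
          (2 * (log (M : ℝ)) ^ (1 + δ')) ^ D
        ≤ (3 ^ k + (k : ℝ) * 29) *
          Real.exp (-(1 / (3 * k + 4) * (log (M : ℝ)) ^ (9 / 10 : ℝ))) *
          (2 ^ D * ((log (M : ℝ)) ^ (2 : ℝ)) ^ D) := by gcongr
      _ = (3 ^ k + (k : ℝ) * 29) * 2 ^ D *
          Real.exp (-(1 / (3 * k + 4) * (log (M : ℝ)) ^ (9 / 10 : ℝ))) *
          ((log (M : ℝ)) ^ (2 : ℝ)) ^ D := by ring
      _ ≤ 1 := m3

end Pool.Agent.N639.FG
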