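import Pool.Agent.N639.FG.C1
import Pool.Agent.N639.FG.C5
import Pool.Agent.N639.FG.FamR
import Pool.Agent.N639.FS.Fam

/-!
# Project FS, general windows: windows and counts
-/

set_option autoImplicit false

namespace Pool.Agent.N639.FG

open Finset Real MeasureTheory Filter Topology Pool.Agent.Y933.KD Pool.Agent.N639.FS

lemma map_real {P : Measure ℝ} (b s : ℕ) {U : Set ℝ} (hU : MeasurableSet U) :
    P.real (Tb b s ⁻¹' U) = (P.map (Tb b s)).real U := by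
  unfold Measure.real
  rw [Measure.map_apply (measurable_Tb b s) hU]

/-- the longest repeated word in windows -/
theorem cg2w {b : ℕ} {Λ : ℕ → ℝ} {S : ℕ → Set (Measure ℝ)} (hb2 : 2 ≤ b)
    (hT : TG b (fun M => 2 * Λ M) S) {ε : ℝ} (hε : 0 < ε) :
    ∃ N0 : ℕ, ∀ᶠ M : ℕ in atTop, ∀ P ∈ S M, ∀ s : ℕ, (s : ℝ) ≤ Λ M →
      ∃ V : Set ℝ, MeasurableSet V ∧ P.real V ≤ ε ∧ ∀ x ∉ V, ∀ N : ℕ, N0 ≤ N → (N : ℝ) ≤ Λ M →
        (∀ w : ℕ, (2 + ε) * log N ≤ w * log b → ¬ Rep b w N (Tb b s x)) ∧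
        (∀ w : ℕ, w * log b ≤ (2 - ε) * log N → Rep b w N (Tb b s x)) := by
  obtain ⟨N0, hN0⟩ := cg2s hb2 (tg_shift (by omega) hT) hε
  refine ⟨N0, ?_⟩
  filter_upwards [hN0] with M hM P hP s hs
  obtain ⟨V, hV1, hV2, hV3⟩ := hM (P.map (Tb b s)) ⟨P, hP, s, hs, rfl⟩
  refine ⟨Tb b s ⁻¹' V, measurable_Tb b s hV1, ?_, fun x hx => hV3 _ hx⟩
  rw [map_real b s hV1]
  exact hV2

/-- the longest run in windows -/
theorem cg5w {b : ℕ} {Λ : ℕ → ℝ} {S : ℕ → Set (Measure ℝ)} (hb2 : 2 ≤ b)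
    (hT : TG b (fun M => 2 * Λ M) S) {ε : ℝ} (hε : 0 < ε) :
    ∃ N0 : ℕ, ∀ᶠ M : ℕ in atTop, ∀ P ∈ S M, ∀ s : ℕ, (s : ℝ) ≤ Λ M →
      ∃ V : Set ℝ, MeasurableSet V ∧ P.real V ≤ ε ∧ ∀ x ∉ V, ∀ N : ℕ, N0 ≤ N → (N : ℝ) ≤ Λ M →
        ∀ w d : ℕ, d < b →
        ((1 + ε) * log N ≤ w * log b → ∀ n < N, wd b w (s + n) x ≠ rp b w d) ∧
        (w * log b ≤ (1 - ε) * log N → ∃ n < N, wd b w (s + n) x = rp b w d) := by
  obtain ⟨N0, hN0⟩ := cg5s hb2 (tg_shift (by omega) hT) hε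
  refine ⟨N0, ?_⟩
  filter_upwards [hN0] with M hM P hP s hs
  obtain ⟨V, hV1, hV2, hV3⟩ := hM (P.map (Tb b s)) ⟨P, hP, s, hs, rfl⟩
  refine ⟨Tb b s ⁻¹' V, measurable_Tb b s hV1, ?_, fun x hx => ?_⟩
  · rw [map_real b s hV1]
    exact hV2
  · simp only [wd_add]
    exact hV3 _ hx

open Classical in
/-- from measures to counts -/
lemma most_of {ι : Type*} {s : Finset ι} {x : ι → ℝ} {U : Set ℝ} (hU : MeasurableSet U) {ε : ℝ}
    (h : (unif s x).real U ≤ ε) {Q : ℝ → Prop} (hQ : ∀ y ∉ U, Q y) :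
    (((s.val.map x).filter fun y => ¬ Q y).card : ℝ) ≤ ε * (s.val.map x).card := by
  rw [real_unif s x hU] at h
  have h1 : ((s.val.map x).filter fun y => ¬ Q y).card = (s.filter (fun m => ¬ Q (x m))).card := by
    rw [Multiset.filter_map, Multiset.card_map]
    rfl
  have h2 : (s.filter (fun m => ¬ Q (x m))).card ≤ (s.filter (fun m => x m ∈ U)).card := by
    refine card_le_card fun m hm => ?_
    rw [mem_filter] at hm ⊢
    exact ⟨hm.1, by_contra fun hc => hm.2 (hQ _ hc)⟩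
  rw [h1, Multiset.card_map]
  have h2' : ((s.filter (fun m => ¬ Q (x m))).card : ℝ) ≤ (s.filter (fun m => x m ∈ U)).card := by
    exact_mod_cast h2
  refine h2'.trans ?_
  have h3 : s.val.card = s.card := rfl
  rw [h3]
  rcases Nat.eq_zero_or_pos s.card with h0 | h0
  · have : (s.filter (fun m => x m ∈ U)).card ≤ s.card := card_filter_le _ _
    have h4 : (s.filter (fun m => x m ∈ U)).card = 0 := by omega
    rw [h4, h0]
    simp
  · have h5 : (0 : ℝ) < s.card := by exact_mod_cast h0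
    rwa [div_le_iff₀ h5] at h

/-- the first family -/
theorem tg_SM {d : ℕ} (ω : Fin d → ℝ) (j0 : Fin d) (halg : IsAlgebraic ℚ (ω j0))
    (hirr : Irrational (ω j0)) {A : ℝ} (hA : 0 < A) {b : ℕ} (hb : 2 ≤ b) :
    TG b (fun M => 2 * (A * log M)) (SM ω) := by
  have := tg_of_tests (A := 2 * A) (by positivity) (tests_SM ω j0 halg hirr b (2 * A))
    (b := b) (by omega) le_rfl
  simpa only [mul_assoc] using this

/-- the second family -/
theorem tg_SR {c ε : ℝ} (hc0 : 0 < c) (hc : ∀ m : ℕ, c ≠ m) (hε : 0 < ε) (W : ℝ) {A : ℝ}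
    (hA : 0 < A) {b : ℕ} (hb : 2 ≤ b) : TG b (fun M => 2 * (A * log M)) (SR c ε W) := by
  have := tg_of_tests (A := 2 * A) (by positivity) (tests_SR hc0 hc hε W b (2 * A))
    (b := b) (by omega) le_rfl
  simpa only [mul_assoc] using this

end Pool.Agent.N639.FG
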