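import Pool.Agent.N639.FG.FinA

/-!
# Project FS, general windows: the Poisson law in windows
-/

set_option autoImplicit false

namespace Pool.Agent.N639.FG

open Finset Real MeasureTheory Filter Topology
open Pool.Agent.Y933.KD Pool.Agent.N639.FS

/-- the number of the places `s ≤ n < s + N` with a word in `W` -/
noncomputable def NW (b w s N : ℕ) (W : Finset ℕ) (x : ℝ) : ℕ :=
  ((range N).filter (fun n => wd b w (s + n) x ∈ W)).card

lemma measurable_NW (b w s N : ℕ) (W : Finset ℕ) : Measurable (NW b w s N W) := by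
  have e : NW b w s N W = fun x => ∑ n ∈ range N, if wd b w (s + n) x ∈ W then 1 else 0 := by
    funext x
    unfold NW
    rw [card_filter]
  rw [e]
  refine Finset.measurable_fun_sum _ fun n _ => ?_
  exact (measurable_of_countable (fun v : ℕ => if v ∈ W then 1 else 0)).comp
    (measurable_wd b w (s + n))

/-- **the Poisson law** in windows -/
theorem cg3w {b : ℕ} {Λ : ℕ → ℝ} {S : ℕ → Set (Measure ℝ)} (hb2 : 2 ≤ b)
    (hT : TG b (fun M => 2 * Λ M) S)
    (r k : ℕ) (κ : ℝ) {ε : ℝ} (hκ : 0 < κ) (hε : 0 < ε) : ∃ N0 : ℕ, ∀ᶠ M : ℕ in atTop, ∀ P ∈ S M,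
    ∀ (w s N : ℕ) (W : Finset ℕ), N0 ≤ N → (s : ℝ) ≤ Λ M → (N : ℝ) ≤ Λ M →
    (N : ℝ) ≤ κ * (b : ℝ) ^ w → (b : ℝ) ^ w ≤ κ * N → W ⊆ range (b ^ w) → W.card = r →
    NoOv b w W →
    |P.real {x | NW b w s N W x = k} -
      exp (-(r * (N / (b : ℝ) ^ w))) * (r * (N / (b : ℝ) ^ w)) ^ k / k.factorial| ≤ ε := by
  obtain ⟨N0, hN0⟩ := cg3 hb2 (tg_shift (by omega) hT) r k κ hκ hε
  refine ⟨N0, ?_⟩
  filter_upwards [hN0] with M hM P hP w s N W hN hs hNΛ h1 h2 h3 h4 h5
  have key := hM (P.map (Tb b s)) ⟨P, hP, s, hs, rfl⟩ w N W hN hNΛ h1 h2 h3 h4 h5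
  have hm : MeasurableSet {x | ((range N).filter (fun n => wd b w n x ∈ W)).card = k} :=
    Pool.Agent.N79.FSC3.measurable_XX b w N W (measurableSet_singleton k)
  rw [← map_real b s hm] at key
  have e : Tb b s ⁻¹' {x | ((range N).filter (fun n => wd b w n x ∈ W)).card = k} =
      {x | NW b w s N W x = k} := by
    ext x
    unfold NW
    simp only [Set.mem_preimage, Set.mem_ofPred_eq, wd_add]
  rw [e] at key
  exact key

open Classical in
/-- the proportion of the members with a property given by a measurable function -/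
lemma prop_of {ι : Type*} {s : Finset ι} {x : ι → ℝ} {f : ℝ → ℕ} (hf : Measurable f) (k : ℕ) :
    (unif s x).real {y | f y = k} = ((s.filter (fun m => f (x m) = k)).card : ℝ) / s.card := by
  have h : MeasurableSet {y | f y = k} := hf (measurableSet_singleton k)
  rw [real_unif s x h]
  congr!

end Pool.Agent.N639.FG
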