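import Pool.Agent.N639.FG.Fin3
import Pool.Agent.N639.FG.C4

/-!
# Project FS, general windows: the complexity law in windows
-/

set_option autoImplicit false

namespace Pool.Agent.N639.FG

open Finset Real MeasureTheory Filter Topology
open Pool.Agent.Y933.KD Pool.Agent.N639.FS

/-- the number of different words of length `w` at the places `s ≤ n < s + N` -/
noncomputable def cw (b w s N : ℕ) (x : ℝ) : ℕ := ((Ico s (s + N)).image (fun n => wd b w n x)).card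

lemma cw_eq (b w s N : ℕ) (x : ℝ) : cw b w s N x = dw b w N (Tb b s x) := by
  unfold cw dw
  congr 1
  have e : Ico s (s + N) = (range N).image (fun n => s + n) := by
    ext n
    simp only [mem_Ico, mem_image, mem_range]
    constructor
    · rintro ⟨h1, h2⟩
      exact ⟨n - s, by omega, by omega⟩
    · rintro ⟨m, hm, rfl⟩
      omega
  rw [e, image_image]
  refine image_congr fun n _ => ?_
  simp only [Function.comp_apply]
  exact wd_add b w s n x

/-- **the complexity law** in windows -/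
theorem cg4w {b : ℕ} {Λ : ℕ → ℝ} {S : ℕ → Set (Measure ℝ)} (hb2 : 2 ≤ b)
    (hT : TG b (fun M => 2 * Λ M) S) {ε : ℝ} (hε : 0 < ε) : ∃ N0 : ℕ, ∀ᶠ M : ℕ in atTop, ∀ P ∈ S M,
    ∀ s N : ℕ, N0 ≤ N → (s : ℝ) ≤ Λ M → (N : ℝ) ≤ Λ M → ∃ U : Set ℝ, MeasurableSet U ∧
      P.real U ≤ ε ∧ ∀ x ∉ U, ∀ w : ℕ,
      |(cw b w s N x : ℝ) - (b : ℝ) ^ w * (1 - exp (-(N / (b : ℝ) ^ w)))| ≤
        ε * ((b : ℝ) ^ w * (1 - exp (-(N / (b : ℝ) ^ w)))) := by
  obtain ⟨N0, hN0⟩ := cg4 hb2 (tg_shift (by omega) hT) hε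
  refine ⟨N0, ?_⟩
  filter_upwards [hN0] with M hM P hP s N hN hs hNΛ
  obtain ⟨U, hU1, hU2, hU3⟩ := hM (P.map (Tb b s)) ⟨P, hP, s, hs, rfl⟩ N hN hNΛ
  refine ⟨Tb b s ⁻¹' U, measurable_Tb b s hU1, ?_, fun x hx w => ?_⟩
  · rw [map_real b s hU1]
    exact hU2
  · rw [cw_eq]
    exact hU3 _ hx w

end Pool.Agent.N639.FG
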