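import Pool.Agent.N639.FG.Fin1
import Pool.Agent.N639.FG.FamA
import Pool.Agent.N639.FG.C3

/-!
# Project FS, general windows: the laws for the real algebraic numbers
-/

set_option autoImplicit false

namespace Pool.Agent.N639.FG

open Finset Real MeasureTheory Filter Topology Polynomial
open Pool.Agent.Y933.KD Pool.Agent.N639.FS Pool.Agent.Y933.KG

open Classical in
/-- from measures to counts -/
lemma cnt_of {ι : Type*} {s : Finset ι} {x : ι → ℝ} {U : Set ℝ} (hU : MeasurableSet U) {ε : ℝ}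
    (h : (unif s x).real U ≤ ε) {Q : ι → Prop} (hQ : ∀ m ∈ s, x m ∉ U → Q m) :
    ((s.filter (fun m => ¬ Q m)).card : ℝ) ≤ ε * s.card := by
  rw [real_unif s x hU] at h
  have h2 : (s.filter (fun m => ¬ Q m)).card ≤ (s.filter (fun m => x m ∈ U)).card := by
    refine card_le_card fun m hm => ?_
    rw [mem_filter] at hm ⊢
    exact ⟨hm.1, by_contra fun hc => hm.2 (hQ _ hm.1 hc)⟩
  have h2' : ((s.filter (fun m => ¬ Q m)).card : ℝ) ≤ (s.filter (fun m => x m ∈ U)).card := by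
    exact_mod_cast h2
  refine h2'.trans ?_
  rcases Nat.eq_zero_or_pos s.card with h0 | h0
  · have : (s.filter (fun m => x m ∈ U)).card ≤ s.card := card_filter_le _ _
    have h4 : (s.filter (fun m => x m ∈ U)).card = 0 := by omega
    rw [h4, h0]
    simp
  · have h5 : (0 : ℝ) < s.card := by exact_mod_cast h0
    rwa [div_le_iff₀ h5] at h

lemma ncard_AS (q H : ℕ) : (Alg (q + 2) H).ncard = (AS q H).card := by
  rw [← Set.ncard_coe_finset]
  congr 1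
  ext x
  rw [Finset.mem_coe, mem_AS]

open Classical in
lemma ncard_bad (q H : ℕ) (Q : ℝ → Prop) :
    {x ∈ Alg (q + 2) H | ¬ Q x}.ncard = ((AS q H).filter fun x => ¬ Q x).card := by
  rw [← Set.ncard_coe_finset]
  congr 1
  ext x
  rw [Finset.coe_filter]
  simp only [Set.mem_ofPred_eq, mem_AS]

lemma wd_shift (b w n n0 : ℕ) (y : ℝ) : wd b w n ((b : ℝ) ^ n0 * y) = wd b w (n0 + n) y := by
  unfold wd
  have : (b : ℝ) ^ n * ((b : ℝ) ^ n0 * y) = (b : ℝ) ^ (n0 + n) * y := by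
    rw [pow_add]; ring
  rw [this]

/-- the general form of the laws for algebraic numbers -/
theorem alg_law (q b : ℕ) (hb : 2 ≤ b) {δ₀ : ℝ} (hδ₀ : 0 < δ₀) {A : ℝ} (hA : 0 < A) :
    ∃ κ : ℝ, 0 < κ ∧ (∃ H0 : ℕ, ∀ H : ℕ, H0 ≤ H → (AS q H).Nonempty) ∧
      ∃ S : ℕ → Set (Measure ℝ), TG b (fun H => 2 * (A * Real.log H)) S ∧ ∀ H : ℕ,
        (AS q H).Nonempty → ∀ G : ℝ[X], 1 ≤ G.natDegree → G.natDegree < q + 2 →
        (∀ i, 1 ≤ i → |G.coeff i| ≤ (H : ℝ) ^ κ) → (H : ℝ) ^ (-κ) ≤ |G.leadingCoeff| →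
        unif (AS q H) (fun x => (b : ℝ) ^ ⌈δ₀ * Real.log H⌉₊ * G.eval x) ∈ S H := by
  obtain ⟨κ, hκ, hne, hT⟩ := tg_SAl q b hb hδ₀ hA
  refine ⟨κ, hκ, hne, _, hT, fun H hH G h1 h2 h3 h4 => ⟨hH, G, h1, by omega, h3, h4, rfl⟩⟩

end Pool.Agent.N639.FG
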